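import Pool.Agent.T3W.Link

/-!
# Project T3W: a count which excludes cores from near packings (weight one)

World with `u = 1`.  From uniqueness of covers (`UC`), `K1`, `E1`, `E3` it follows that every member
of a near packing is hit twice by a minimum cover.
-/

set_option autoImplicit false

namespace Pool.Agent.T3W

open Finset Pool.Agent.TRed

variable {V : Type} [Fintype V] [DecidableEq V] {L : Finset V → Prop}

/-- Near packing at `z`: partners `A`, `B`, third set `C`. -/
structure NP (L : Finset V → Prop) (z : V) (A B C : Finset V) : Prop where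
  la : L A
  lb : L B
  lc : L C
  ab : A ∩ B = {z}
  ac : Disjoint A C
  bc : Disjoint B C

/-- The complement of `X` is live and all live sets in it have exactly the point `y` in common. -/
structure Ker1 (L : Finset V → Prop) (X : Finset V) (y : V) : Prop where
  co : L Xᶜ
  nm : y ∉ X
  ker : ∀ v, v ∉ X → (¬ L (insert v X)ᶜ ↔ v = y)

/-- Minimal covers. -/
def MC (L : Finset V → Prop) (C : Finset V) : Prop := ¬ L Cᶜ ∧ ∀ v ∈ C, L (C.erase v)ᶜ

/-- Covers with three points. -/
def C3 (L : Finset V → Prop) (T : Finset V) : Prop := ¬ L Tᶜ ∧ T.card = 3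

/-- `X` is a member of a near packing at `x`. -/
def Mem (L : Finset V → Prop) (x : V) (X : Finset V) : Prop :=
  (∃ B C, NP L x X B C) ∨ ∃ A B, NP L x A B X

/-- `X` is hit at most once by every cover with three points. -/
def Core (L : Finset V → Prop) (X : Finset V) : Prop := ∀ T, C3 L T → (T ∩ X).card ≤ 1

/-- Only one minimal cover lies in `K + y` if the kernel of `K` is `y`. -/
def UC (L : Finset V → Prop) : Prop :=
  ∀ K y, L K → Ker1 L K y → ∀ C C', MC L C → MC L C' → C ⊆ insert y K → C' ⊆ insert y K → C = C'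

/-- The kernel of a partner is a point. -/
def K1 (L : Finset V → Prop) : Prop := ∀ z A B C, NP L z A B C → ∃ y, Ker1 L A y

/-- All members hit twice by the same cover with three points have the same kernel. -/
def E1 (L : Finset V → Prop) : Prop :=
  ∀ T x x' X X' t t', C3 L T → x ∈ T → x' ∈ T → Mem L x X → Mem L x' X' →
    2 ≤ (T ∩ X).card → 2 ≤ (T ∩ X').card → Ker1 L X t → Ker1 L X' t' → t = t'

/-- Two cores which are partners at the same point have the same kernel. -/
def E3 (L : Finset V → Prop) : Prop :=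
  ∀ s X B A X' B' A' z z' T₁ T₂ w, NP L s X B A → NP L s X' B' A' → Core L X → Core L X' →
    Ker1 L X z → Ker1 L X' z' → C3 L T₁ → s ∈ T₁ → T₁.erase s ⊆ A ∩ A' →
    C3 L T₂ → s ∈ T₂ → w ∈ T₂ → T₂.erase w ⊆ B ∩ B' → w ∈ A ∩ A' →
    Ker1 L B w → Ker1 L B' w → z = z'

/-- Near packings are exact. -/
def Exact (L : Finset V → Prop) : Prop := ∀ z A B C, NP L z A B C → A ∪ B ∪ C = Finset.univ

omit [Fintype V] in
lemma NP.symm {z : V} {A B C : Finset V} (h : NP L z A B C) : NP L z B A C :=
  ⟨h.lb, h.la, h.lc, by rw [Finset.inter_comm]; exact h.ab, h.bc, h.ac⟩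

omit [Fintype V] in
lemma NP.za {z : V} {A B C : Finset V} (h : NP L z A B C) : z ∈ A := by
  have h1 : z ∈ A ∩ B := by rw [h.ab]; exact Finset.mem_singleton_self z
  exact (Finset.mem_inter.1 h1).1

omit [Fintype V] in
lemma NP.zb {z : V} {A B C : Finset V} (h : NP L z A B C) : z ∈ B := h.symm.za

omit [Fintype V] in
lemma NP.zc {z : V} {A B C : Finset V} (h : NP L z A B C) : z ∉ C :=
  fun hz => (Finset.disjoint_left.1 h.ac) h.za hz

lemma Ker1.uniq {X : Finset V} {y y' : V} (h : Ker1 L X y) (h' : Ker1 L X y') : y = y' :=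
  (h'.ker y h.nm).1 ((h.ker y h.nm).2 rfl)

section W
variable (hW : World L (fun _ => 1))
include hW

lemma w_tau {X : Finset V} (hX : ¬ L Xᶜ) : 3 ≤ X.card := by
  have h := hW.tau X hX
  rwa [Finset.sum_const, smul_eq_mul, mul_one] at h

lemma w_disj {A B C : Finset V} (hA : L A) (hB : L B) (hC : L C) (hAB : Disjoint A B)
    (hAC : Disjoint A C) (hBC : Disjoint B C) : False := by
  apply hW.nu
  refine ⟨A, B, C, hA, hB, hC, fun v => ?_⟩
  unfold ind
  by_cases h1 : v ∈ A
  · have h2 : v ∉ B := Finset.disjoint_left.1 hAB h1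
    have h3 : v ∉ C := Finset.disjoint_left.1 hAC h1
    simp [h1, h2, h3]
  · by_cases h2 : v ∈ B
    · have h3 : v ∉ C := Finset.disjoint_left.1 hBC h2
      simp [h1, h2, h3]
    · simp only [h1, h2, if_false]
      split_ifs <;> omega

lemma w_c3_mc {T : Finset V} (hT : C3 L T) : MC L T := by
  refine ⟨hT.1, fun v hv => ?_⟩
  by_contra hcon
  have h1 := w_tau hW hcon
  rw [Finset.card_erase_of_mem hv, hT.2] at h1
  omega

omit hW in
lemma exists_mc {C : Finset V} (hC : ¬ L Cᶜ) : ∃ C', C' ⊆ C ∧ MC L C' := by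
  classical
  have hne : (C.powerset.filter (fun X => ¬ L Xᶜ)).Nonempty :=
    ⟨C, Finset.mem_filter.2 ⟨Finset.mem_powerset_self C, hC⟩⟩
  obtain ⟨C', hC', hmin⟩ := Finset.exists_min_image _ Finset.card hne
  rw [Finset.mem_filter, Finset.mem_powerset] at hC'
  refine ⟨C', hC'.1, hC'.2, fun v hv => ?_⟩
  by_contra hcon
  have h1 := hmin (C'.erase v) (Finset.mem_filter.2
    ⟨Finset.mem_powerset.2 ((Finset.erase_subset _ _).trans hC'.1), hcon⟩)
  rw [Finset.card_erase_of_mem hv] at h1
  have h2 : 0 < C'.card := Finset.card_pos.2 ⟨v, hv⟩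
  omega

lemma ker_ne {X : Finset V} (hX : L X) (hc : L Xᶜ) : ∃ v, v ∉ X ∧ ¬ L (insert v X)ᶜ := by
  obtain ⟨P, Q, hP, hQ, hLP, hLQ, hPQ⟩ := hW.t2 Xᶜ hc
  by_contra hcon
  push Not at hcon
  have hXP : Disjoint X P := by
    rw [Finset.disjoint_left]
    intro v h1 h2
    exact (Finset.mem_compl.1 (hP h2)) h1
  have hXQ : Disjoint X Q := by
    rw [Finset.disjoint_left]
    intro v h1 h2
    exact (Finset.mem_compl.1 (hQ h2)) h1
  have hPQ' : Disjoint P Q := by
    rw [Finset.disjoint_left]
    intro v h1 h2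
    apply hPQ v h1 h2
    have h3 := hcon v (Finset.mem_compl.1 (hP h1))
    rwa [Finset.compl_insert] at h3
  exact w_disj hW hX hLP hLQ hXP hXQ hPQ'

lemma NP.ker {z : V} {A B C : Finset V} (h : NP L z A B C) : Ker1 L C z := by
  have hm := hW.mono
  have hsub : ∀ {S : Finset V} {v : V}, Disjoint S C → v ∉ S → S ⊆ (insert v C)ᶜ := by
    intro S v hS hv e he
    rw [Finset.mem_compl, Finset.mem_insert, not_or]
    exact ⟨fun h => hv (by rw [← h]; exact he), Finset.disjoint_left.1 hS he⟩
  have hco : L Cᶜ := hm A _ (fun e he => Finset.mem_compl.2 (Finset.disjoint_left.1 h.ac he)) h.la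
  have h1 : ∀ v, v ∉ C → ¬ L (insert v C)ᶜ → v = z := by
    intro v _ hv2
    by_contra hne
    have h2 : v ∉ A ∩ B := by
      rw [h.ab, Finset.mem_singleton]
      exact hne
    rw [Finset.mem_inter, not_and_or] at h2
    rcases h2 with h2 | h2
    · exact hv2 (hm A _ (hsub h.ac h2) h.la)
    · exact hv2 (hm B _ (hsub h.bc h2) h.lb)
  refine ⟨hco, h.zc, fun v hv => ⟨h1 v hv, ?_⟩⟩
  rintro rfl
  obtain ⟨v0, hv0, hv0'⟩ := ker_ne hW h.lc hco
  have h2 := h1 v0 hv0 hv0'
  rwa [h2] at hv0'

/-- The three ways to read a near packing. -/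
lemma np_cases {z : V} {A B C : Finset V} (hA : L A) (hB : L B) (hC : L C)
    (hs : ∀ v, ind A v + ind B v + ind C v ≤ 1 + (if v = z then 1 else 0)) :
    NP L z A B C ∨ NP L z A C B ∨ NP L z B C A := by
  have hz := hs z
  rw [if_pos rfl] at hz
  have hne : ∀ v, v ≠ z → ind A v + ind B v + ind C v ≤ 1 := fun v hv => by
    have h := hs v
    rwa [if_neg hv, add_zero] at h
  have key : ∀ {X Y Z : Finset V}, L X → L Y → L Z →
      (∀ v, v ≠ z → ind X v + ind Y v + ind Z v ≤ 1) → z ∈ X → z ∈ Y → z ∉ Z → NP L z X Y Z := by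
    intro X Y Z hX hY hZ hone hzX hzY hzZ
    refine ⟨hX, hY, hZ, ?_, ?_, ?_⟩
    · ext v
      rw [Finset.mem_inter, Finset.mem_singleton]
      constructor
      · rintro ⟨h1, h2⟩
        by_contra hv
        have h3 := hone v hv
        rw [ind_pos h1, ind_pos h2] at h3
        omega
      · rintro rfl
        exact ⟨hzX, hzY⟩
    · rw [Finset.disjoint_left]
      intro v h1 h2
      have hv : v ≠ z := fun h => hzZ (by rw [← h]; exact h2)
      have h3 := hone v hv
      rw [ind_pos h1, ind_pos h2] at h3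
      omega
    · rw [Finset.disjoint_left]
      intro v h1 h2
      have hv : v ≠ z := fun h => hzZ (by rw [← h]; exact h2)
      have h3 := hone v hv
      rw [ind_pos h1, ind_pos h2] at h3
      omega
  have hnot : ¬ (ind A z + ind B z + ind C z ≤ 1) := by
    intro h
    apply hW.nu
    refine ⟨A, B, C, hA, hB, hC, fun v => ?_⟩
    by_cases hv : v = z
    · rw [hv]
      exact h
    · exact hne v hv
  by_cases hzA : z ∈ A
  · by_cases hzB : z ∈ B
    · left
      apply key hA hB hC hne hzA hzB
      intro hzC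
      rw [ind_pos hzA, ind_pos hzB, ind_pos hzC] at hz
      omega
    · right; left
      have hzC : z ∈ C := by
        by_contra hzC
        apply hnot
        rw [ind_pos hzA, ind_neg hzB, ind_neg hzC]
      exact key hA hC hB (fun v hv => by have := hne v hv; omega) hzA hzC hzB
  · right; right
    have hzB : z ∈ B := by
      by_contra hzB
      apply hnot
      rw [ind_neg hzA, ind_neg hzB]
      unfold ind
      split_ifs <;> omega
    have hzC : z ∈ C := by
      by_contra hzC
      apply hnot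
      rw [ind_neg hzA, ind_pos hzB, ind_neg hzC]
    exact key hB hC hA (fun v hv => by have := hne v hv; omega) hzB hzC hzA

lemma np_exists (z : V) : ∃ A B C, NP L z A B C := by
  obtain ⟨A, B, C, hA, hB, hC, hs⟩ := hW.near z
  rcases np_cases hW hA hB hC hs with h | h | h
  · exact ⟨_, _, _, h⟩
  · exact ⟨_, _, _, h⟩
  · exact ⟨_, _, _, h⟩

/-- Near packings are exact, by uniqueness of covers. -/
lemma exact_of_uc (hU : UC L) : Exact L := by
  intro y A B Z h
  have hm := hW.mono
  by_contra hne
  have hq : ∃ q, q ∉ A ∪ B ∪ Z := by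
    by_contra hcon
    push Not at hcon
    exact hne (Finset.eq_univ_iff_forall.2 hcon)
  obtain ⟨q, hq⟩ := hq
  rw [Finset.mem_union, Finset.mem_union, not_or, not_or] at hq
  obtain ⟨⟨hqA, hqB⟩, hqZ⟩ := hq
  -- a cover with three points through `q`
  have hT : ∃ T, C3 L T ∧ q ∈ T := by
    by_contra hcon
    push Not at hcon
    have htau : TauW L (fun v => if v = q then 0 else 1) 3 := by
      intro X hX
      have h3 := w_tau hW hX
      have hsum : ∑ v ∈ X, (if v = q then 0 else 1) = (X.erase q).card := by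
        rw [Finset.card_eq_sum_ones]
        have h4 : ∀ v ∈ X.erase q, (1 : ℕ) = if v = q then 0 else 1 := by
          intro v hv
          rw [if_neg (Finset.ne_of_mem_erase hv)]
        rw [Finset.sum_congr rfl h4]
        by_cases hqX : q ∈ X
        · rw [← Finset.add_sum_erase X _ hqX, if_pos rfl, zero_add]
        · rw [Finset.erase_eq_of_notMem hqX]
      rw [hsum]
      by_cases hqX : q ∈ X
      · rw [Finset.card_erase_of_mem hqX]
        have h5 : X.card ≠ 3 := fun h5 => hcon X ⟨hX, h5⟩ hqX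
        omega
      · rw [Finset.erase_eq_of_notMem hqX]
        exact h3
    obtain ⟨A', B', C', hA', hB', hC', hs⟩ := hW.good _ htau (Or.inl ⟨q, Or.inl (if_pos rfl)⟩)
    apply hW.nu
    refine ⟨A', B', C', hA', hB', hC', fun v => (hs v).trans ?_⟩
    show (if v = q then 0 else 1) ≤ 1
    split_ifs <;> omega
  obtain ⟨T, hT, hqT⟩ := hT
  have hyT : T ⊆ insert y (insert q Z) := by
    have ha := cov_live hm hT.1 h.la
    have hb := cov_live hm hT.1 h.lb
    have hc := cov_live hm hT.1 h.lc
    obtain ⟨a, ha⟩ := Finset.card_pos.1 (show 0 < (T ∩ A).card by omega)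
    obtain ⟨b, hb⟩ := Finset.card_pos.1 (show 0 < (T ∩ B).card by omega)
    obtain ⟨c, hc⟩ := Finset.card_pos.1 (show 0 < (T ∩ Z).card by omega)
    rw [Finset.mem_inter] at ha hb hc
    have hcy : c ≠ a := fun h1 => (Finset.disjoint_left.1 h.ac) ha.2 (h1 ▸ hc.2)
    have hcb : c ≠ b := fun h1 => (Finset.disjoint_left.1 h.bc) hb.2 (h1 ▸ hc.2)
    have hqa : q ≠ a := fun h1 => hqA (h1 ▸ ha.2)
    have hqb : q ≠ b := fun h1 => hqB (h1 ▸ hb.2)
    have hqc : q ≠ c := fun h1 => hqZ (h1 ▸ hc.2)
    have hab : a = b := by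
      by_contra hab
      have h4 : ({q, a, b, c} : Finset V) ⊆ T := by
        intro e he
        simp only [Finset.mem_insert, Finset.mem_singleton] at he
        rcases he with rfl | rfl | rfl | rfl
        · exact hqT
        · exact ha.1
        · exact hb.1
        · exact hc.1
      have h5 := Finset.card_le_card h4
      rw [hT.2, Finset.card_insert_of_notMem (by simp [hqa, hqb, hqc]),
        Finset.card_insert_of_notMem (by simp [hab, hcy.symm]),
        Finset.card_pair hcb.symm] at h5
      omega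
    subst hab
    have hay : a = y := by
      have h1 : a ∈ A ∩ B := Finset.mem_inter.2 ⟨ha.2, hb.2⟩
      rwa [h.ab, Finset.mem_singleton] at h1
    subst hay
    have h4 : ({q, a, c} : Finset V) ⊆ T := by
      intro e he
      simp only [Finset.mem_insert, Finset.mem_singleton] at he
      rcases he with rfl | rfl | rfl
      · exact hqT
      · exact ha.1
      · exact hc.1
    have h5 : ({q, a, c} : Finset V) = T := by
      apply Finset.eq_of_subset_of_card_le h4
      rw [hT.2, Finset.card_insert_of_notMem (by simp [hqa, hqc]), Finset.card_pair hcy.symm]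
    rw [← h5]
    intro e he
    simp only [Finset.mem_insert, Finset.mem_singleton] at he ⊢
    rcases he with rfl | rfl | rfl
    · exact Or.inr (Or.inl rfl)
    · exact Or.inl rfl
    · exact Or.inr (Or.inr hc.2)
  -- the live set `Z + q`
  have hkZ := h.ker hW
  have hyq : y ≠ q := fun h1 => hqA (h1 ▸ h.za)
  have hK : Ker1 L (insert q Z) y := by
    have hsub : ∀ {S : Finset V} {v : V}, Disjoint S Z → q ∉ S → v ∉ S →
        S ⊆ (insert v (insert q Z))ᶜ := by
      intro S v hS hq hv e he
      rw [Finset.mem_compl, Finset.mem_insert, Finset.mem_insert, not_or, not_or]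
      exact ⟨fun h => hv (by rw [← h]; exact he), fun h => hq (by rw [← h]; exact he),
        Finset.disjoint_left.1 hS he⟩
    refine ⟨?_, ?_, fun v hv => ⟨fun hv2 => ?_, ?_⟩⟩
    · refine hm A _ ?_ h.la
      intro e he
      rw [Finset.mem_compl, Finset.mem_insert, not_or]
      exact ⟨fun h => hqA (by rw [← h]; exact he), Finset.disjoint_left.1 h.ac he⟩
    · rw [Finset.mem_insert, not_or]
      exact ⟨hyq, h.zc⟩
    · by_contra hvy
      have h2 : v ∉ A ∩ B := by
        rw [h.ab, Finset.mem_singleton]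
        exact hvy
      rw [Finset.mem_inter, not_and_or] at h2
      rcases h2 with h2 | h2
      · exact hv2 (hm A _ (hsub h.ac hqA h2) h.la)
      · exact hv2 (hm B _ (hsub h.bc hqB h2) h.lb)
    · rintro rfl hlive
      apply (hkZ.ker v h.zc).2 rfl
      refine hm _ _ ?_ hlive
      apply Finset.compl_subset_compl.2
      exact Finset.insert_subset_insert _ (Finset.subset_insert _ _)
  obtain ⟨C', hC'1, hC'2⟩ := exists_mc ((hkZ.ker y h.zc).2 rfl)
  have h6 := hU (insert q Z) y (hm _ _ (Finset.subset_insert _ _) h.lc) hK T C' (w_c3_mc hW hT)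
    hC'2 hyT (hC'1.trans (Finset.insert_subset_insert _ (Finset.subset_insert _ _)))
  rw [h6] at hqT
  rcases Finset.mem_insert.1 (hC'1 hqT) with h7 | h7
  · exact hyq h7.symm
  · exact hqZ h7

/-- A member hit twice by a cover with three points. -/
lemma hit_ker {X T : Finset V} {y : V} (hk : Ker1 L X y) (hT : C3 L T)
    (h2 : 2 ≤ (T ∩ X).card) : T ⊆ insert y X ∧ y ∈ T ∧ (T ∩ X).card = 2 := by
  have hm := hW.mono
  have h3 : (T ∩ X).card ≤ 2 := by
    by_contra hcon
    have h4 : T ∩ X = T := by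
      apply Finset.eq_of_subset_of_card_le Finset.inter_subset_left
      rw [hT.2]
      omega
    have h5 : T ⊆ X := Finset.inter_eq_left.1 h4
    exact hT.1 (hm _ _ (Finset.compl_subset_compl.2 h5) hk.co)
  have h4 : (T \ X).card = 1 := by
    have h5 := Finset.card_sdiff_add_card_inter T X
    rw [hT.2] at h5
    omega
  obtain ⟨v, hv⟩ := Finset.card_eq_one.1 h4
  have hvm : v ∈ T \ X := by rw [hv]; exact Finset.mem_singleton_self v
  rw [Finset.mem_sdiff] at hvm
  have hsub : T ⊆ insert v X := by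
    intro e he
    by_cases heX : e ∈ X
    · exact Finset.mem_insert_of_mem heX
    · have h5 : e ∈ T \ X := Finset.mem_sdiff.2 ⟨he, heX⟩
      rw [hv, Finset.mem_singleton] at h5
      rw [h5]
      exact Finset.mem_insert_self _ _
  have hvy : v = y := by
    apply (hk.ker v hvm.2).1
    intro hl
    exact hT.1 (hm _ _ (Finset.compl_subset_compl.2 hsub) hl)
  subst hvy
  exact ⟨hsub, hvm.1, by omega⟩

omit [Fintype V] hW in
lemma mem_live {x : V} {X : Finset V} (hX : Mem L x X) : L X := by
  rcases hX with ⟨B, C, h⟩ | ⟨A, B, h⟩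
  · exact h.la
  · exact h.lc

lemma mem_ker (hK : K1 L) {x : V} {X : Finset V} (hX : Mem L x X) : ∃ y, Ker1 L X y := by
  rcases hX with ⟨B, C, h⟩ | ⟨A, B, h⟩
  · exact hK _ _ _ _ h
  · exact ⟨x, h.ker hW⟩

lemma hit_uniq (hU : UC L) (hK : K1 L) {x : V} {X T T' : Finset V} (hX : Mem L x X) (hT : C3 L T)
    (hT' : C3 L T') (h : 2 ≤ (T ∩ X).card) (h' : 2 ≤ (T' ∩ X).card) : T = T' := by
  obtain ⟨y, hy⟩ := mem_ker hW hK hX
  exact hU X y (mem_live hX) hy T T' (w_c3_mc hW hT) (w_c3_mc hW hT') (hit_ker hW hy hT h).1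
    (hit_ker hW hy hT' h').1

lemma hit_sum (hE : Exact L) {z : V} {A B C T : Finset V} (h : NP L z A B C) (hT : C3 L T) :
    1 ≤ (T ∩ A).card ∧ 1 ≤ (T ∩ B).card ∧ 1 ≤ (T ∩ C).card ∧
      (T ∩ A).card + (T ∩ B).card + (T ∩ C).card = 3 + (if z ∈ T then 1 else 0) := by
  have hm := hW.mono
  refine ⟨cov_live hm hT.1 h.la, cov_live hm hT.1 h.lb, cov_live hm hT.1 h.lc, ?_⟩
  rw [← sum_ind, ← sum_ind, ← sum_ind, ← Finset.sum_add_distrib, ← Finset.sum_add_distrib]
  have h1 : ∀ v ∈ T, ind A v + ind B v + ind C v = 1 + (if v = z then 1 else 0) := by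
    intro v _
    by_cases hv : v = z
    · subst hv
      rw [ind_pos h.za, ind_pos h.zb, ind_neg h.zc, if_pos rfl]
    · rw [if_neg hv]
      have hu : v ∈ A ∪ B ∪ C := by rw [hE _ _ _ _ h]; exact Finset.mem_univ _
      have hab : ¬ (v ∈ A ∧ v ∈ B) := by
        rw [← Finset.mem_inter, h.ab, Finset.mem_singleton]
        exact hv
      have hac := fun h1 : v ∈ A => Finset.disjoint_left.1 h.ac h1
      have hbc := fun h1 : v ∈ B => Finset.disjoint_left.1 h.bc h1
      rw [Finset.mem_union, Finset.mem_union] at hu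
      unfold ind
      by_cases hA : v ∈ A
      · simp [hA, hac hA]
        intro hB
        exact hab ⟨hA, hB⟩
      · by_cases hB : v ∈ B
        · simp [hA, hB, hbc hB]
        · have hC : v ∈ C := by tauto
          simp [hA, hB, hC]
  rw [Finset.sum_congr rfl h1, Finset.sum_add_distrib, Finset.sum_const, smul_eq_mul, mul_one,
    hT.2, Finset.sum_ite_eq']

end W

end Pool.Agent.T3W
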