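import Pool.Agent.T3W.Count

set_option autoImplicit false

namespace Pool.Agent.T3W

open Finset Pool.Agent.TRed

variable {V : Type} [Fintype V] [DecidableEq V] {L : Finset V → Prop}

open Classical in
/-- The covers with three points. -/
noncomputable def TT (L : Finset V → Prop) : Finset (Finset V) := Finset.univ.filter (C3 L)

lemma mem_TT {T : Finset V} : T ∈ TT L ↔ C3 L T := by
  classical
  unfold TT
  rw [Finset.mem_filter]
  exact ⟨fun h => h.2, fun h => ⟨Finset.mem_univ _, h⟩⟩

/-- The number of covers with three points through `z`. -/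
noncomputable def deg (L : Finset V → Prop) (z : V) : ℕ := ((TT L).filter (fun T => z ∈ T)).card

/-- The number of covers with three points which hit `X` twice. -/
noncomputable def hits (L : Finset V → Prop) (X : Finset V) : ℕ :=
  ((TT L).filter (fun T => 2 ≤ (T ∩ X).card)).card

lemma hits_core {X : Finset V} (hX : Core L X) : hits L X = 0 := by
  unfold hits
  rw [Finset.card_eq_zero, Finset.filter_eq_empty_iff]
  intro T hT h
  have := hX T (mem_TT.1 hT)
  omega

lemma core_of_hits {X : Finset V} (hX : hits L X = 0) : Core L X := by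
  unfold hits at hX
  rw [Finset.card_eq_zero, Finset.filter_eq_empty_iff] at hX
  intro T hT
  have := hX (mem_TT.2 hT)
  omega

lemma hits_pos {X : Finset V} (hX : hits L X ≠ 0) : ∃ T, C3 L T ∧ 2 ≤ (T ∩ X).card := by
  by_contra hcon
  push Not at hcon
  apply hX
  apply hits_core
  intro T hT
  have := hcon T hT
  omega

section W
variable (hW : World L (fun _ => 1))
include hW

lemma hits_le {x : V} {X : Finset V} (hU : UC L) (hK : K1 L) (hX : Mem L x X) : hits L X ≤ 1 := by
  unfold hits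
  rw [Finset.card_le_one]
  intro T hT T' hT'
  rw [Finset.mem_filter, mem_TT] at hT hT'
  exact hit_uniq hW hU hK hX hT.1 hT'.1 hT.2 hT'.2

lemma deg_np (hE : Exact L) {z : V} {A B C : Finset V} (h : NP L z A B C) :
    deg L z = hits L A + hits L B + hits L C := by
  unfold deg hits
  rw [Finset.card_filter, Finset.card_filter, Finset.card_filter, Finset.card_filter,
    ← Finset.sum_add_distrib, ← Finset.sum_add_distrib]
  apply Finset.sum_congr rfl
  intro T hT
  obtain ⟨h1, h2, h3, h4⟩ := hit_sum hW hE h (mem_TT.1 hT)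
  by_cases hz : z ∈ T
  · rw [if_pos hz] at h4 ⊢
    split_ifs <;> omega
  · rw [if_neg hz] at h4 ⊢
    split_ifs <;> omega

lemma hit_z (hE : Exact L) {z : V} {A B C T : Finset V} (h : NP L z A B C) (hT : C3 L T)
    (h2 : 2 ≤ (T ∩ A).card ∨ 2 ≤ (T ∩ B).card ∨ 2 ≤ (T ∩ C).card) : z ∈ T := by
  by_contra hz
  obtain ⟨h1, h2, h3, h4⟩ := hit_sum hW hE h hT
  rw [if_neg hz] at h4
  omega

lemma deg_ge (hE : Exact L) (z : V) : 2 ≤ deg L z := by
  by_contra hcon
  have hm := hW.mono
  have hvc : 3 ≤ Fintype.card V := by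
    have h1 : ¬ L (Finset.univ : Finset V)ᶜ := by
      rw [Finset.compl_univ]
      intro h0
      exact hW.nu ⟨∅, ∅, ∅, h0, h0, h0, fun v => by simp [ind]⟩
    have h2 := w_tau hW h1
    rwa [Finset.card_univ] at h2
  have ha : ∃ a, a ≠ z ∧ ∀ T, C3 L T → z ∈ T → a ∈ T := by
    by_cases h0 : ∃ T0, C3 L T0 ∧ z ∈ T0
    · obtain ⟨T0, hT0, hz0⟩ := h0
      have h1 : 0 < (T0.erase z).card := by
        rw [Finset.card_erase_of_mem hz0, hT0.2]
        omega
      obtain ⟨a, ha⟩ := Finset.card_pos.1 h1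
      refine ⟨a, Finset.ne_of_mem_erase ha, fun T hT hz => ?_⟩
      have h2 : ((TT L).filter (fun T => z ∈ T)).card ≤ 1 := by
        unfold deg at hcon
        omega
      rw [Finset.card_le_one] at h2
      have h3 := h2 T (Finset.mem_filter.2 ⟨mem_TT.2 hT, hz⟩) T0
        (Finset.mem_filter.2 ⟨mem_TT.2 hT0, hz0⟩)
      rw [h3]
      exact Finset.mem_of_mem_erase ha
    · have h1 : 0 < ((Finset.univ : Finset V).erase z).card := by
        rw [Finset.card_erase_of_mem (Finset.mem_univ z), Finset.card_univ]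
        omega
      obtain ⟨a, ha⟩ := Finset.card_pos.1 h1
      refine ⟨a, Finset.ne_of_mem_erase ha, fun T hT hz => ?_⟩
      exact absurd ⟨T, hT, hz⟩ h0
  obtain ⟨a, haz, ha⟩ := ha
  have htau : TauW L (fun v => (if v = z then 0 else 1) + (if v = a then 1 else 0)) 3 := by
    intro X hX
    have h3 := w_tau hW hX
    rw [Finset.sum_add_distrib, Finset.sum_ite_eq']
    have hsum : ∑ v ∈ X, (if v = z then 0 else 1) = (X.erase z).card := by
      rw [Finset.card_eq_sum_ones]
      have h4 : ∀ v ∈ X.erase z, (1 : ℕ) = if v = z then 0 else 1 := by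
        intro v hv
        rw [if_neg (Finset.ne_of_mem_erase hv)]
      rw [Finset.sum_congr rfl h4]
      by_cases hzX : z ∈ X
      · rw [← Finset.add_sum_erase X _ hzX, if_pos rfl, zero_add]
      · rw [Finset.erase_eq_of_notMem hzX]
    rw [hsum]
    by_cases hzX : z ∈ X
    · rw [Finset.card_erase_of_mem hzX]
      by_cases h5 : X.card = 3
      · rw [if_pos (ha X ⟨hX, h5⟩ hzX)]
        omega
      · omega
    · rw [Finset.erase_eq_of_notMem hzX]
      omega
  obtain ⟨A, B, C, hA, hB, hC, hs⟩ := hW.good _ htau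
    (Or.inl ⟨z, Or.inl (by simp [Ne.symm haz])⟩)
  have hs' : ∀ v, ind A v + ind B v + ind C v ≤ 1 + (if v = a then 1 else 0) := by
    intro v
    refine (hs v).trans ?_
    show (if v = z then 0 else 1) + (if v = a then 1 else 0) ≤ _
    split_ifs <;> omega
  have hz0 : z ∉ A ∧ z ∉ B ∧ z ∉ C := by
    have h1 := hs z
    simp only [if_true, if_neg (Ne.symm haz)] at h1
    refine ⟨fun h => ?_, fun h => ?_, fun h => ?_⟩ <;> rw [ind_pos h] at h1 <;> omega
  have hzu : ∀ {X Y Z : Finset V}, NP L a X Y Z → z ∈ X ∪ Y ∪ Z := fun h => by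
    rw [hE _ _ _ _ h]
    exact Finset.mem_univ _
  rcases np_cases hW hA hB hC hs' with h | h | h
  · have h1 := hzu h
    rw [Finset.mem_union, Finset.mem_union] at h1
    tauto
  · have h1 := hzu h
    rw [Finset.mem_union, Finset.mem_union] at h1
    tauto
  · have h1 := hzu h
    rw [Finset.mem_union, Finset.mem_union] at h1
    tauto

/-- A third set is a partner at the other points of the minimal cover. -/
lemma partner (hU : UC L) {X T' A B : Finset V} {z s : V} (h : NP L z A B X) (hT' : MC L T')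
    (hsub : T' ⊆ insert z X) (hs : s ∈ T') (hsz : s ≠ z) : ∃ G D, NP L s X G D := by
  have hm := hW.mono
  have hk := h.ker hW
  have hsX : s ∈ X := by
    rcases Finset.mem_insert.1 (hsub hs) with h1 | h1
    · exact absurd h1 hsz
    · exact h1
  have hF : L (insert z (X.erase s))ᶜ := by
    by_contra hF
    obtain ⟨C', hC'1, hC'2⟩ := exists_mc hF
    have h1 := hU X z h.lc hk T' C' hT' hC'2 hsub
      (hC'1.trans (Finset.insert_subset_insert _ (Finset.erase_subset _ _)))
    rw [h1] at hs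
    rcases Finset.mem_insert.1 (hC'1 hs) with h2 | h2
    · exact hsz h2
    · exact (Finset.ne_of_mem_erase h2) rfl
  have hAW : A ⊆ (X.erase s)ᶜ := by
    intro e he
    rw [Finset.mem_compl, Finset.mem_erase, not_and]
    intro _ heX
    exact (Finset.disjoint_left.1 h.ac) he heX
  have hBW : B ⊆ (X.erase s)ᶜ := by
    intro e he
    rw [Finset.mem_compl, Finset.mem_erase, not_and]
    intro _ heX
    exact (Finset.disjoint_left.1 h.bc) he heX
  obtain ⟨P, Q, hP, hQ, hLP, hLQ, hPQ⟩ := hW.t2 (X.erase s)ᶜ (hm _ _ hAW h.la)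
  have hne : ∀ v, L ((X.erase s)ᶜ.erase v) := by
    intro v
    by_cases hvz : v = z
    · subst hvz
      rwa [Finset.compl_insert] at hF
    · have h1 : v ∉ A ∩ B := by
        rw [h.ab, Finset.mem_singleton]
        exact hvz
      rw [Finset.mem_inter, not_and_or] at h1
      rcases h1 with h1 | h1
      · refine hm A _ ?_ h.la
        intro e he
        exact Finset.mem_erase.2 ⟨fun h2 => h1 (by rw [← h2]; exact he), hAW he⟩
      · refine hm B _ ?_ h.lb
        intro e he
        exact Finset.mem_erase.2 ⟨fun h2 => h1 (by rw [← h2]; exact he), hBW he⟩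
  have hdis : Disjoint P Q := by
    rw [Finset.disjoint_left]
    intro v h1 h2
    exact hPQ v h1 h2 (hne v)
  have hX1 : ∀ {S : Finset V}, S ⊆ (X.erase s)ᶜ → s ∉ S → Disjoint X S := by
    intro S hS hsS
    rw [Finset.disjoint_left]
    intro e he heS
    have h1 := Finset.mem_compl.1 (hS heS)
    rw [Finset.mem_erase, not_and] at h1
    by_cases hes : e = s
    · exact hsS (by rw [← hes]; exact heS)
    · exact h1 hes he
  have hX2 : ∀ {S : Finset V}, S ⊆ (X.erase s)ᶜ → s ∈ S → X ∩ S = {s} := by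
    intro S hS hsS
    ext e
    rw [Finset.mem_inter, Finset.mem_singleton]
    constructor
    · rintro ⟨he, heS⟩
      have h1 := Finset.mem_compl.1 (hS heS)
      rw [Finset.mem_erase, not_and] at h1
      by_contra hes
      exact h1 hes he
    · rintro rfl
      exact ⟨hsX, hsS⟩
  by_cases hsP : s ∈ P
  · have hsQ : s ∉ Q := Finset.disjoint_left.1 hdis hsP
    exact ⟨P, Q, h.lc, hLP, hLQ, hX2 hP hsP, hX1 hQ hsQ, hdis⟩
  · by_cases hsQ : s ∈ Q
    · exact ⟨Q, P, h.lc, hLQ, hLP, hX2 hQ hsQ, hX1 hP hsP, hdis.symm⟩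
    · exact (w_disj hW h.lc hLP hLQ (hX1 hP hsP) (hX1 hQ hsQ) hdis).elim

omit hW in
lemma sum_deg : ∑ z, deg L z = 3 * (TT L).card := by
  have h1 : ∀ z, deg L z = ∑ T ∈ TT L, (if z ∈ T then 1 else 0) := by
    intro z
    unfold deg
    rw [Finset.card_filter]
  rw [Finset.sum_congr rfl (fun z _ => h1 z), Finset.sum_comm]
  have h2 : ∀ T ∈ TT L, ∑ z, (if z ∈ T then 1 else 0) = 3 := by
    intro T hT
    rw [Finset.sum_ite_mem, Finset.univ_inter, Finset.sum_const, smul_eq_mul, mul_one]
    exact (mem_TT.1 hT).2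
  rw [Finset.sum_congr rfl h2, Finset.sum_const, smul_eq_mul, mul_comm]

/-- The count: every member of a near packing is hit twice. -/
theorem hit2_of_count (hU : UC L) (hK : K1 L) (hE1 : E1 L) (hE3 : E3 L) :
    Hit2 L (fun _ => 1) := by
  classical
  have hm := hW.mono
  have hE := exact_of_uc hW hU
  have hnonempty : Nonempty V := by
    by_contra hcon
    rw [not_nonempty_iff] at hcon
    have h1 : ¬ L (Finset.univ : Finset V)ᶜ := by
      rw [Finset.compl_univ]
      intro h0
      exact hW.nu ⟨∅, ∅, ∅, h0, h0, h0, fun v => by simp [ind]⟩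
    have h2 := w_tau hW h1
    rw [Finset.card_univ, Fintype.card_eq_zero] at h2
    omega
  -- the point `v T`
  have hv : ∀ T, ∃ t, C3 L T → t ∈ T ∧ ∀ x ∈ T, ∀ X, Mem L x X → 2 ≤ (T ∩ X).card →
      Ker1 L X t := by
    intro T
    by_cases hT : C3 L T
    · have h0 : 0 < T.card := by rw [hT.2]; omega
      obtain ⟨x, hx⟩ := Finset.card_pos.1 h0
      obtain ⟨A, B, C, h⟩ := np_exists hW x
      have hex : ∃ X, Mem L x X ∧ 2 ≤ (T ∩ X).card := by
        obtain ⟨h1, h2, h3, h4⟩ := hit_sum hW hE h hT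
        rw [if_pos hx] at h4
        by_cases hA : 2 ≤ (T ∩ A).card
        · exact ⟨A, Or.inl ⟨B, C, h⟩, hA⟩
        · by_cases hB : 2 ≤ (T ∩ B).card
          · exact ⟨B, Or.inl ⟨A, C, h.symm⟩, hB⟩
          · exact ⟨C, Or.inr ⟨A, B, h⟩, by omega⟩
      obtain ⟨X, hX, hX2⟩ := hex
      obtain ⟨t, ht⟩ := mem_ker hW hK hX
      refine ⟨t, fun _ => ⟨(hit_ker hW ht hT hX2).2.1, fun x' hx' X' hX' hX2' => ?_⟩⟩
      obtain ⟨t', ht'⟩ := mem_ker hW hK hX'
      have h1 := hE1 T x x' X X' t t' hT hx hx' hX hX' hX2 hX2' ht ht'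
      rwa [h1]
    · exact ⟨Classical.choice hnonempty, fun h => absurd h hT⟩
  choose v hv using hv
  -- a third set hit twice by `T`
  have hthird : ∀ {z : V} {A B C T : Finset V}, NP L z A B C → C3 L T → 2 ≤ (T ∩ C).card →
      v T = z := by
    intro z A B C T h hT h2
    have hz := hit_z hW hE h hT (Or.inr (Or.inr h2))
    exact ((hv T hT).2 z hz C (Or.inr ⟨A, B, h⟩) h2).uniq (h.ker hW)
  have hthird' : ∀ {z : V} {A B C T : Finset V}, NP L z A B C → C3 L T → v T = z →
      2 ≤ (T ∩ C).card := by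
    intro z A B C T h hT hvT
    have hz : z ∈ T := by rw [← hvT]; exact (hv T hT).1
    obtain ⟨h1, h2, h3, h4⟩ := hit_sum hW hE h hT
    rw [if_pos hz] at h4
    by_contra hcon
    by_cases hA : 2 ≤ (T ∩ A).card
    · have h5 := (hv T hT).2 z hz A (Or.inl ⟨B, C, h⟩) hA
      rw [hvT] at h5
      exact h5.nm h.za
    · have hB : 2 ≤ (T ∩ B).card := by omega
      have h5 := (hv T hT).2 z hz B (Or.inl ⟨A, C, h.symm⟩) hB
      rw [hvT] at h5
      exact h5.nm h.zb
  have hinj : ∀ T T', C3 L T → C3 L T' → v T = v T' → T = T' := by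
    intro T T' hT hT' hvv
    obtain ⟨A, B, C, h⟩ := np_exists hW (v T)
    exact hit_uniq hW hU hK (Or.inr ⟨A, B, h⟩) hT hT' (hthird' h hT rfl) (hthird' h hT' hvv.symm)
  set Im : Finset V := (TT L).image v with hIm
  have hImc : Im.card = (TT L).card := by
    apply Finset.card_image_of_injOn
    intro T hT T' hT' hvv
    exact hinj T T' (mem_TT.1 hT) (mem_TT.1 hT') hvv
  have hcore : ∀ {z : V} {A B C : Finset V}, z ∉ Im → NP L z A B C → Core L C := by
    intro z A B C hz h T hT
    by_contra hcon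
    apply hz
    rw [hIm, Finset.mem_image]
    exact ⟨T, mem_TT.2 hT, hthird h hT (by omega)⟩
  have hle3 : ∀ z, deg L z ≤ 3 := by
    intro z
    obtain ⟨A, B, C, h⟩ := np_exists hW z
    have h1 := hits_le hW hU hK (Or.inl ⟨B, C, h⟩ : Mem L z A)
    have h2 := hits_le hW hU hK (Or.inl ⟨A, C, h.symm⟩ : Mem L z B)
    have h3 := hits_le hW hU hK (Or.inr ⟨A, B, h⟩ : Mem L z C)
    rw [deg_np hW hE h]
    omega
  have hge2 := deg_ge hW hE
  have hnim : ∀ z, z ∉ Im → deg L z = 2 := by
    intro z hz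
    obtain ⟨A, B, C, h⟩ := np_exists hW z
    have h1 := hits_le hW hU hK (Or.inl ⟨B, C, h⟩ : Mem L z A)
    have h2 := hits_le hW hU hK (Or.inl ⟨A, C, h.symm⟩ : Mem L z B)
    have h3 := hits_core (hcore hz h)
    have h4 := deg_np hW hE h
    have h5 := hge2 z
    omega
  set Gs : Finset V := Im.filter (fun z => deg L z = 2) with hGs
  have hcount : Gs.card = 2 * Imᶜ.card := by
    have h1 := sum_deg (L := L)
    rw [← Finset.sum_add_sum_compl Im] at h1
    have h2 : ∑ z ∈ Imᶜ, deg L z = 2 * Imᶜ.card := by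
      rw [Finset.sum_congr rfl (fun z hz => hnim z (Finset.mem_compl.1 hz)), Finset.sum_const,
        smul_eq_mul, mul_comm]
    have h3 : ∑ z ∈ Im, deg L z + Gs.card = 3 * Im.card := by
      rw [hGs, Finset.card_filter, ← Finset.sum_add_distrib]
      have h4 : ∀ z ∈ Im, deg L z + (if deg L z = 2 then 1 else 0) = 3 := by
        intro z _
        have h5 := hge2 z
        have h6 := hle3 z
        split_ifs <;> omega
      rw [Finset.sum_congr rfl h4, Finset.sum_const, smul_eq_mul, mul_comm]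
    omega
  have hS : ∀ z, ∃ S : Finset V, z ∉ Im → 3 ≤ S.card ∧ S ⊆ Gs ∧
      ∀ s ∈ S, ∃ X G D, NP L s X G D ∧ Core L X ∧ Ker1 L X z := by
    intro z
    by_cases hz : z ∈ Im
    · exact ⟨∅, fun h => absurd hz h⟩
    · obtain ⟨A, B, X, h⟩ := np_exists hW z
      have hk := h.ker hW
      have hX := hcore hz h
      obtain ⟨T', hT'1, hT'2⟩ := exists_mc ((hk.ker z h.zc).2 rfl)
      have hzT : z ∈ T' := by
        by_contra hzT
        apply hT'2.1
        refine hm _ _ ?_ hk.co
        apply Finset.compl_subset_compl.2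
        intro e he
        rcases Finset.mem_insert.1 (hT'1 he) with h1 | h1
        · exact absurd (h1 ▸ he) hzT
        · exact h1
      have hsub : T'.erase z ⊆ X := by
        intro e he
        rcases Finset.mem_insert.1 (hT'1 (Finset.mem_of_mem_erase he)) with h1 | h1
        · exact absurd h1 (Finset.ne_of_mem_erase he)
        · exact h1
      refine ⟨T'.erase z, fun _ => ⟨?_, ?_, ?_⟩⟩
      · rw [Finset.card_erase_of_mem hzT]
        have h3 := w_tau hW hT'2.1
        by_contra hcon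
        have h4 : C3 L T' := ⟨hT'2.1, by omega⟩
        have h5 := hX T' h4
        have h6 : (T'.erase z).card ≤ (T' ∩ X).card := Finset.card_le_card (fun e he =>
          Finset.mem_inter.2 ⟨Finset.mem_of_mem_erase he, hsub he⟩)
        rw [Finset.card_erase_of_mem hzT, h4.2] at h6
        omega
      · intro s hs
        obtain ⟨G, D, hn⟩ := partner hW hU h hT'2 hT'1 (Finset.mem_of_mem_erase hs)
          (Finset.ne_of_mem_erase hs)
        have h1 := hits_core hX
        have h2 := hits_le hW hU hK (Or.inl ⟨X, D, hn.symm⟩ : Mem L s G)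
        have h3 := hits_le hW hU hK (Or.inr ⟨X, G, hn⟩ : Mem L s D)
        have h4 := deg_np hW hE hn
        have h5 := hge2 s
        rw [hGs, Finset.mem_filter]
        refine ⟨?_, by omega⟩
        obtain ⟨T1, hT1, hT1'⟩ := hits_pos (show hits L D ≠ 0 by omega)
        rw [hIm, Finset.mem_image]
        exact ⟨T1, mem_TT.2 hT1, hthird hn hT1 hT1'⟩
      · intro s hs
        obtain ⟨G, D, hn⟩ := partner hW hU h hT'2 hT'1 (Finset.mem_of_mem_erase hs)
          (Finset.ne_of_mem_erase hs)
        exact ⟨X, G, D, hn, hX, hk⟩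
  choose S hS using hS
  have hempty : Imᶜ.card = 0 := by
    by_contra hne
    have hnd : ¬ (((Imᶜ : Finset V) : Set V).PairwiseDisjoint S) := by
      intro hpd
      have h1 := Finset.card_biUnion hpd
      have h2 : (Imᶜ.biUnion S) ⊆ Gs := by
        intro s hs
        obtain ⟨z, hz, hsz⟩ := Finset.mem_biUnion.1 hs
        exact (hS z (Finset.mem_compl.1 hz)).2.1 hsz
      have h3 := Finset.card_le_card h2
      have h4 : ∑ z ∈ Imᶜ, 3 ≤ ∑ z ∈ Imᶜ, (S z).card :=
        Finset.sum_le_sum fun z hz => (hS z (Finset.mem_compl.1 hz)).1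
      rw [Finset.sum_const, smul_eq_mul] at h4
      omega
    apply hnd
    intro z hz z' hz' hzz
    show Disjoint (S z) (S z')
    rw [Finset.disjoint_left]
    intro s hs hs'
    apply hzz
    have hzn : z ∉ Im := Finset.mem_compl.1 (Finset.mem_coe.1 hz)
    have hzn' : z' ∉ Im := Finset.mem_compl.1 (Finset.mem_coe.1 hz')
    obtain ⟨X, G, D, hn, hX, hk⟩ := (hS z hzn).2.2 s hs
    obtain ⟨X', G', D', hn', hX', hk'⟩ := (hS z' hzn').2.2 s hs'
    have hds : deg L s = 2 := (Finset.mem_filter.1 ((hS z hzn).2.1 hs)).2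
    have key : ∀ {X G D : Finset V}, NP L s X G D → Core L X →
        (∃ T1, C3 L T1 ∧ 2 ≤ (T1 ∩ D).card) ∧ ∃ T2, C3 L T2 ∧ 2 ≤ (T2 ∩ G).card := by
      intro X G D hn hX
      have h1 := hits_core hX
      have h2 := hits_le hW hU hK (Or.inl ⟨X, D, hn.symm⟩ : Mem L s G)
      have h3 := hits_le hW hU hK (Or.inr ⟨X, G, hn⟩ : Mem L s D)
      have h4 := deg_np hW hE hn
      exact ⟨hits_pos (by omega), hits_pos (by omega)⟩
    obtain ⟨⟨T1, hT1, hT1D⟩, T2, hT2, hT2G⟩ := key hn hX
    obtain ⟨⟨T1', hT1', hT1D'⟩, T2', hT2', hT2G'⟩ := key hn' hX'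
    have hv1 : v T1 = s := hthird hn hT1 hT1D
    have hv1' : v T1' = s := hthird hn' hT1' hT1D'
    have h11 : T1 = T1' := hinj T1 T1' hT1 hT1' (hv1.trans hv1'.symm)
    subst h11
    have hs1 : s ∈ T1 := hit_z hW hE hn hT1 (Or.inr (Or.inr hT1D))
    have hs2 : s ∈ T2 := hit_z hW hE hn hT2 (Or.inr (Or.inl hT2G))
    have hs2' : s ∈ T2' := hit_z hW hE hn' hT2' (Or.inr (Or.inl hT2G'))
    have hkG := (hv T2 hT2).2 s hs2 G (Or.inl ⟨X, D, hn.symm⟩) hT2G
    have hkG' := (hv T2' hT2').2 s hs2' G' (Or.inl ⟨X', D', hn'.symm⟩) hT2G'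
    have hne12 : T1 ≠ T2 := by
      intro h
      rw [← h, hv1] at hkG
      exact hkG.nm hn.zb
    have hne12' : T1 ≠ T2' := by
      intro h
      rw [← h, hv1] at hkG'
      exact hkG'.nm hn'.zb
    have h22 : T2 = T2' := by
      by_contra h22
      have h1 : ({T1, T2, T2'} : Finset (Finset V)) ⊆ (TT L).filter (fun T => s ∈ T) := by
        intro T hT
        simp only [Finset.mem_insert, Finset.mem_singleton] at hT
        rw [Finset.mem_filter, mem_TT]
        rcases hT with rfl | rfl | rfl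
        · exact ⟨hT1, hs1⟩
        · exact ⟨hT2, hs2⟩
        · exact ⟨hT2', hs2'⟩
      have h2 := Finset.card_le_card h1
      rw [Finset.card_insert_of_notMem (by simp [hne12, hne12']), Finset.card_pair h22] at h2
      unfold deg at hds
      omega
    subst h22
    have hw := hit_ker hW hkG hT2 hT2G
    have hw' := hit_ker hW hkG' hT2 hT2G'
    have hks := hit_ker hW (hn.ker hW) hT1 hT1D
    have hks' := hit_ker hW (hn'.ker hW) hT1 hT1D'
    have her : ∀ {T D : Finset V} {x : V}, T ⊆ insert x D → T.erase x ⊆ D := by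
      intro T D x hTD e he
      rcases Finset.mem_insert.1 (hTD (Finset.mem_of_mem_erase he)) with h1 | h1
      · exact absurd h1 (Finset.ne_of_mem_erase he)
      · exact h1
    have hwD : ∀ {X G D : Finset V}, NP L s X G D → Core L X → v T2 ∉ G → v T2 ∈ T2 →
        v T2 ∈ D := by
      intro X G D hn hX hwG hwT
      have h1 : v T2 ∈ X ∪ G ∪ D := by
        rw [hE _ _ _ _ hn]
        exact Finset.mem_univ _
      rw [Finset.mem_union, Finset.mem_union] at h1
      rcases h1 with (h1 | h1) | h1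
      · exfalso
        have h2 := hX T2 hT2
        rw [Finset.card_le_one] at h2
        have h3 := h2 s (Finset.mem_inter.2 ⟨hs2, hn.za⟩) (v T2) (Finset.mem_inter.2 ⟨hwT, h1⟩)
        apply hwG
        rw [← h3]
        exact hn.zb
      · exact absurd h1 hwG
      · exact h1
    refine hE3 s X G D X' G' D' z z' T1 T2 (v T2) hn hn' hX hX' hk hk' hT1 hs1 ?_ hT2 hs2
      hw.2.1 ?_ ?_ hkG hkG'
    · exact Finset.subset_inter (her hks.1) (her hks'.1)
    · exact Finset.subset_inter (her hw.1) (her hw'.1)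
    · exact Finset.mem_inter.2 ⟨hwD hn hX hkG.nm hw.2.1, hwD hn' hX' hkG'.nm hw.2.1⟩
  have hdeg3 : ∀ z, deg L z = 3 := by
    intro z
    have h1 : Gs = ∅ := by
      rw [← Finset.card_eq_zero]
      omega
    have hz : z ∈ Im := by
      by_contra hz
      have h2 : z ∈ (Imᶜ : Finset V) := Finset.mem_compl.2 hz
      rw [Finset.card_eq_zero] at hempty
      rw [hempty] at h2
      exact Finset.notMem_empty _ h2
    have h2 : deg L z ≠ 2 := by
      intro h2
      have h3 : z ∈ Gs := Finset.mem_filter.2 ⟨hz, h2⟩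
      rw [h1] at h3
      exact Finset.notMem_empty _ h3
    have h3 := hge2 z
    have h4 := hle3 z
    omega
  have hall : ∀ {z : V} {A B C : Finset V}, NP L z A B C →
      (∃ T, C3 L T ∧ 2 ≤ (T ∩ A).card) ∧ (∃ T, C3 L T ∧ 2 ≤ (T ∩ C).card) := by
    intro z A B C h
    have h1 := hits_le hW hU hK (Or.inl ⟨B, C, h⟩ : Mem L z A)
    have h2 := hits_le hW hU hK (Or.inl ⟨A, C, h.symm⟩ : Mem L z B)
    have h3 := hits_le hW hU hK (Or.inr ⟨A, B, h⟩ : Mem L z C)
    have h4 := deg_np hW hE h
    have h5 := hdeg3 z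
    exact ⟨hits_pos (by omega), hits_pos (by omega)⟩
  intro z A B C hA hB hC hs
  have hfin : ∃ T, C3 L T ∧ 2 ≤ (T ∩ A).card := by
    rcases np_cases hW hA hB hC hs with h | h | h
    · exact (hall h).1
    · exact (hall h).1
    · exact (hall h).2
  obtain ⟨T, hT, h2⟩ := hfin
  refine ⟨T, ⟨hT.1, ?_⟩, h2⟩
  rw [Finset.sum_const, smul_eq_mul, mul_one]
  exact hT.2

end W

end Pool.Agent.T3W
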