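import Pool.Agent.TRed.Core

/-!
# Project T3W (MP_98b56a_co): covering number three, the world of a minimal counterexample

`L` is an upset of subsets of `V` (live sets).  `World L u` collects what is known about a bad
weight `u` with the smallest support and, for it, the largest sum.
-/

set_option autoImplicit false

namespace Pool.Agent.T3W

open Finset Pool.Agent.TRed

variable {V : Type} [Fintype V] [DecidableEq V]

/-- Indicator function with values in `ℕ`. -/
def ind (A : Finset V) (v : V) : ℕ := if v ∈ A then 1 else 0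

/-- Every live set `U` contains two live sets which meet only in points whose removal makes `U`
dead. -/
def T2 (L : Finset V → Prop) : Prop :=
  ∀ U, L U → ∃ P Q : Finset V, P ⊆ U ∧ Q ⊆ U ∧ L P ∧ L Q ∧ ∀ v ∈ P, v ∈ Q → ¬ L (U.erase v)

/-- The weighted covering number is at least `k`. -/
def TauW (L : Finset V → Prop) (w : V → ℕ) (k : ℕ) : Prop :=
  ∀ X : Finset V, ¬ L Xᶜ → k ≤ ∑ v ∈ X, w v

/-- Three live sets fit into the weight `w`. -/
def Nu3 (L : Finset V → Prop) (w : V → ℕ) : Prop :=
  ∃ A B C : Finset V, L A ∧ L B ∧ L C ∧ ∀ v, ind A v + ind B v + ind C v ≤ w v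

/-- The world of a minimal counterexample with covering number three. -/
structure World (L : Finset V → Prop) (u : V → ℕ) : Prop where
  mono : Mono L
  t2 : T2 L
  frac : FracL L
  pos : ∀ v, 1 ≤ u v
  le2 : ∀ v, u v ≤ 2
  tau : TauW L u 3
  nu : ¬ Nu3 L u
  good : ∀ w : V → ℕ, TauW L w 3 →
    ((∃ v, w v = 0 ∨ 3 ≤ w v) ∨ ∑ v, u v < ∑ v, w v) → Nu3 L w

/-- Minimum covers. -/
def MinCov (L : Finset V → Prop) (u : V → ℕ) (T : Finset V) : Prop :=
  ¬ L Tᶜ ∧ ∑ v ∈ T, u v = 3

/-- Every member of a near packing is hit twice by some minimum cover. -/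
def Hit2 (L : Finset V → Prop) (u : V → ℕ) : Prop :=
  ∀ (z : V) (A B C : Finset V), L A → L B → L C →
    (∀ v, ind A v + ind B v + ind C v ≤ u v + (if v = z then 1 else 0)) →
    ∃ T, MinCov L u T ∧ 2 ≤ (T ∩ A).card

variable {L : Finset V → Prop} {u : V → ℕ}

omit [Fintype V] in
lemma ind_pos {A : Finset V} {v : V} (h : v ∈ A) : ind A v = 1 := if_pos h

omit [Fintype V] in
lemma ind_neg {A : Finset V} {v : V} (h : v ∉ A) : ind A v = 0 := if_neg h

omit [Fintype V] in
lemma sum_ind (T A : Finset V) : ∑ v ∈ T, ind A v = (T ∩ A).card := by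
  unfold ind
  rw [Finset.sum_ite_mem, Finset.sum_const, smul_eq_mul, mul_one]

/-- A cover meets a live set. -/
lemma cov_live (hm : Mono L) {T A : Finset V} (hT : ¬ L Tᶜ) (hA : L A) : 1 ≤ (T ∩ A).card := by
  rw [Nat.one_le_iff_ne_zero, Finset.card_ne_zero]
  by_contra hcon
  rw [Finset.not_nonempty_iff_eq_empty] at hcon
  apply hT
  refine hm A _ ?_ hA
  intro e he
  rw [Finset.mem_compl]
  intro heT
  have h : e ∈ T ∩ A := Finset.mem_inter.2 ⟨heT, he⟩
  rw [hcon] at h
  exact Finset.notMem_empty _ h

/-- There is a near packing at every point. -/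
lemma World.near (h : World L u) (z : V) : ∃ A B C : Finset V, L A ∧ L B ∧ L C ∧
    ∀ v, ind A v + ind B v + ind C v ≤ u v + (if v = z then 1 else 0) := by
  apply h.good
  · intro X hX
    refine (h.tau X hX).trans (Finset.sum_le_sum fun v _ => ?_)
    exact Nat.le_add_right _ _
  · right
    apply Finset.sum_lt_sum
    · intro v _
      exact Nat.le_add_right _ _
    · refine ⟨z, Finset.mem_univ _, ?_⟩
      rw [if_pos rfl]
      exact Nat.lt_succ_self _

end Pool.Agent.T3W
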