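import Pool.Agent.T3W.Defs

set_option autoImplicit false

namespace Pool.Agent.T3W

open Finset Pool.Agent.TRed

variable {V : Type} [Fintype V] [DecidableEq V] {L : Finset V → Prop} {u : V → ℕ}

/-- A minimum cover which misses the double point hits every member of the near packing once. -/
lemma hit_away (hm : Mono L) {z : V} {S : Fin 3 → Finset V} (hS : ∀ i, L (S i))
    (hs : ∀ v, ind (S 0) v + ind (S 1) v + ind (S 2) v ≤ u v + (if v = z then 1 else 0))
    {T : Finset V} (hT : MinCov L u T) (hz : z ∉ T) (i : Fin 3) : (T ∩ S i).card = 1 := by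
  have h1 : (T ∩ S 0).card + (T ∩ S 1).card + (T ∩ S 2).card ≤ 3 := by
    rw [← sum_ind, ← sum_ind, ← sum_ind, ← Finset.sum_add_distrib, ← Finset.sum_add_distrib]
    refine le_trans (Finset.sum_le_sum ?_) (le_of_eq hT.2)
    intro v hv
    have h2 := hs v
    have hvz : v ≠ z := fun h => hz (by rw [← h]; exact hv)
    rwa [if_neg hvz, add_zero] at h2
  have h0 := cov_live hm hT.1 (hS 0)
  have h1' := cov_live hm hT.1 (hS 1)
  have h2' := cov_live hm hT.1 (hS 2)
  fin_cases i
  · show (T ∩ S 0).card = 1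
    omega
  · show (T ∩ S 1).card = 1
    omega
  · show (T ∩ S 2).card = 1
    omega

/-- A minimum cover which hits a member of the near packing twice contains the double point. -/
lemma hit_at (hm : Mono L) {z : V} {S : Fin 3 → Finset V} (hS : ∀ i, L (S i))
    (hs : ∀ v, ind (S 0) v + ind (S 1) v + ind (S 2) v ≤ u v + (if v = z then 1 else 0))
    {T : Finset V} (hT : MinCov L u T) (i : Fin 3) (hi : 2 ≤ (T ∩ S i).card) :
    z ∈ T ∧ ∀ j, (T ∩ S j).card = if j = i then 2 else 1 := by
  have hz : z ∈ T := by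
    by_contra hz
    have h := hit_away hm hS hs hT hz i
    omega
  refine ⟨hz, ?_⟩
  have h1 : (T ∩ S 0).card + (T ∩ S 1).card + (T ∩ S 2).card ≤ 4 := by
    rw [← sum_ind, ← sum_ind, ← sum_ind, ← Finset.sum_add_distrib, ← Finset.sum_add_distrib]
    calc ∑ v ∈ T, (ind (S 0) v + ind (S 1) v + ind (S 2) v)
        ≤ ∑ v ∈ T, (u v + (if v = z then 1 else 0)) := Finset.sum_le_sum fun v _ => hs v
      _ = 4 := by
        rw [Finset.sum_add_distrib, hT.2, Finset.sum_ite_eq', if_pos hz]
  have h0 := cov_live hm hT.1 (hS 0)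
  have h1' := cov_live hm hT.1 (hS 1)
  have h2' := cov_live hm hT.1 (hS 2)
  intro j
  fin_cases i <;> fin_cases j <;> simp <;> simp at hi <;> omega

/-- The size of a core. -/
lemma core_lt (hW : World L u) (hH : Hit2 L u) {D : Finset V} (hD : L D)
    (hc : ∀ T, MinCov L u T → (T ∩ D).card = 1) : 3 * D.card + 1 ≤ Fintype.card V := by
  classical
  have hm := hW.mono
  -- near packings
  have hnear : ∀ z : V, ∃ S : Fin 3 → Finset V, (∀ i, L (S i)) ∧
      ∀ v, ind (S 0) v + ind (S 1) v + ind (S 2) v ≤ u v + (if v = z then 1 else 0) := by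
    intro z
    obtain ⟨A, B, C, hA, hB, hC, h⟩ := hW.near z
    refine ⟨![A, B, C], fun i => ?_, h⟩
    fin_cases i
    · exact hA
    · exact hB
    · exact hC
  choose S hS hs using hnear
  have hT : ∀ (z : V) (i : Fin 3), ∃ T, MinCov L u T ∧ 2 ≤ (T ∩ S z i).card := by
    intro z i
    fin_cases i
    · exact hH z (S z 0) (S z 1) (S z 2) (hS z 0) (hS z 1) (hS z 2) (hs z)
    · exact hH z (S z 1) (S z 0) (S z 2) (hS z 1) (hS z 0) (hS z 2)
        (fun v => by have := hs z v; omega)
    · exact hH z (S z 2) (S z 0) (S z 1) (hS z 2) (hS z 0) (hS z 1)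
        (fun v => by have := hs z v; omega)
  choose T hT1 hT2 using hT
  have hat := fun z i => hit_at hm (hS z) (hs z) (hT1 z i) i (hT2 z i)
  -- the functionals
  let χ : (V → ℚ) → ℚ := fun x => ∑ v ∈ D, x v - (1 / 3) * ∑ v, (u v : ℚ) * x v
  let ψ : V → Fin 3 → (V → ℚ) → ℚ := fun z i x =>
    ∑ v ∈ S z i, x v - (1 / 3) * ∑ v, (u v : ℚ) * x v
  let t : Finset V → V → ℚ := fun T v => if v ∈ T then 1 else 0
  have hut : ∀ T, MinCov L u T → ∑ v, (u v : ℚ) * t T v = 3 := by
    intro T hT
    have h1 : ∑ v, (u v : ℚ) * t T v = ∑ v ∈ T, (u v : ℚ) := by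
      rw [← Finset.sum_filter_add_sum_filter_not Finset.univ (fun v => v ∈ T)]
      rw [Finset.sum_eq_zero (s := Finset.univ.filter (fun v => ¬ v ∈ T))]
      · rw [add_zero, Finset.filter_mem_eq_inter, Finset.univ_inter]
        apply Finset.sum_congr rfl
        intro v hv
        show (u v : ℚ) * (if v ∈ T then 1 else 0) = _
        rw [if_pos hv, mul_one]
      · intro v hv
        show (u v : ℚ) * (if v ∈ T then 1 else 0) = _
        rw [if_neg (Finset.mem_filter.1 hv).2, mul_zero]
    rw [h1, ← Nat.cast_sum, hT.2]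
    norm_num
  have hst : ∀ A T : Finset V, ∑ v ∈ A, t T v = ((T ∩ A).card : ℚ) := by
    intro A T
    show ∑ v ∈ A, (if v ∈ T then (1 : ℚ) else 0) = _
    rw [Finset.sum_ite_mem, Finset.sum_const, nsmul_eq_mul, mul_one, Finset.inter_comm]
  have hχt : ∀ T, MinCov L u T → χ (t T) = 0 := by
    intro T hT
    show ∑ v ∈ D, t T v - (1 / 3) * ∑ v, (u v : ℚ) * t T v = 0
    rw [hst, hut T hT, hc T hT]
    norm_num
  have hψt : ∀ z ∈ D, ∀ i, ∀ z' ∈ D, ∀ j, ψ z i (t (T z' j)) = if z = z' ∧ i = j then 1 else 0 := by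
    intro z hz i z' hz' j
    show ∑ v ∈ S z i, t (T z' j) v - (1 / 3) * ∑ v, (u v : ℚ) * t (T z' j) v = _
    rw [hst, hut _ (hT1 z' j)]
    by_cases hzz : z = z'
    · subst hzz
      rw [(hat z j).2 i]
      by_cases hij : i = j
      · subst hij
        simp
        norm_num
      · simp [hij]
    · rw [if_neg (fun h => hzz h.1)]
      have hzT : z ∉ T z' j := by
        intro hzT
        have h1 : ({z, z'} : Finset V) ⊆ T z' j ∩ D := by
          intro e he
          rcases Finset.mem_insert.1 he with rfl | he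
          · exact Finset.mem_inter.2 ⟨hzT, hz⟩
          · rw [Finset.mem_singleton.1 he]
            exact Finset.mem_inter.2 ⟨(hat z' j).1, hz'⟩
        have h2 := Finset.card_le_card h1
        rw [hc _ (hT1 z' j), Finset.card_pair hzz] at h2
        omega
      rw [hit_away hm (hS z) (hs z) (hT1 z' j) hzT i]
      norm_num
  -- a vector on which χ does not vanish
  have hex : ∃ e : V → ℚ, χ e ≠ 0 := by
    by_cases hne : D.Nonempty
    · obtain ⟨v0, hv0⟩ := hne
      refine ⟨fun v => if v = v0 then 1 else 0, ?_⟩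
      show ∑ v ∈ D, (if v = v0 then (1 : ℚ) else 0) -
        (1 / 3) * ∑ v, (u v : ℚ) * (if v = v0 then 1 else 0) ≠ 0
      have h2 := hW.le2 v0
      have h3 : ((u v0 : ℕ) : ℚ) ≤ 2 := by exact_mod_cast h2
      simp only [mul_ite, mul_one, mul_zero, Finset.sum_ite_eq', Finset.mem_univ, if_true, hv0]
      intro h
      linarith
    · rw [Finset.not_nonempty_iff_eq_empty] at hne
      exfalso
      apply hW.nu
      rw [hne] at hD
      exact ⟨∅, ∅, ∅, hD, hD, hD, fun v => by simp [ind]⟩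
  obtain ⟨e, he⟩ := hex
  have hχadd : ∀ x y, χ (x + y) = χ x + χ y := by
    intro x y
    show ∑ v ∈ D, (x v + y v) - (1 / 3) * ∑ v, (u v : ℚ) * (x v + y v) =
      (∑ v ∈ D, x v - (1 / 3) * ∑ v, (u v : ℚ) * x v) +
      (∑ v ∈ D, y v - (1 / 3) * ∑ v, (u v : ℚ) * y v)
    simp only [mul_add, Finset.sum_add_distrib]
    ring
  have hχsmul : ∀ (c : ℚ) x, χ (c • x) = c * χ x := by
    intro c x
    show ∑ v ∈ D, (c * x v) - (1 / 3) * ∑ v, (u v : ℚ) * (c * x v) =
      c * (∑ v ∈ D, x v - (1 / 3) * ∑ v, (u v : ℚ) * x v)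
    rw [← Finset.mul_sum, mul_sub]
    have h1 : ∑ v, (u v : ℚ) * (c * x v) = c * ∑ v, (u v : ℚ) * x v := by
      rw [Finset.mul_sum]
      exact Finset.sum_congr rfl (fun v _ => by ring)
    rw [h1]
    ring
  have hψadd : ∀ z i x y, ψ z i (x + y) = ψ z i x + ψ z i y := by
    intro z i x y
    show ∑ v ∈ S z i, (x v + y v) - (1 / 3) * ∑ v, (u v : ℚ) * (x v + y v) =
      (∑ v ∈ S z i, x v - (1 / 3) * ∑ v, (u v : ℚ) * x v) +
      (∑ v ∈ S z i, y v - (1 / 3) * ∑ v, (u v : ℚ) * y v)
    simp only [mul_add, Finset.sum_add_distrib]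
    ring
  have hψsmul : ∀ z i (c : ℚ) x, ψ z i (c • x) = c * ψ z i x := by
    intro z i c x
    show ∑ v ∈ S z i, (c * x v) - (1 / 3) * ∑ v, (u v : ℚ) * (c * x v) =
      c * (∑ v ∈ S z i, x v - (1 / 3) * ∑ v, (u v : ℚ) * x v)
    rw [← Finset.mul_sum, mul_sub]
    have h1 : ∑ v, (u v : ℚ) * (c * x v) = c * ∑ v, (u v : ℚ) * x v := by
      rw [Finset.mul_sum]
      exact Finset.sum_congr rfl (fun v _ => by ring)
    rw [h1]
    ring
  let χl : (V → ℚ) →ₗ[ℚ] ℚ := ⟨⟨χ, hχadd⟩, fun c x => by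
    rw [RingHom.id_apply, smul_eq_mul]
    exact hχsmul c x⟩
  let ψl : V → Fin 3 → (V → ℚ) →ₗ[ℚ] ℚ := fun z i => ⟨⟨ψ z i, hψadd z i⟩, fun c x => by
    rw [RingHom.id_apply, smul_eq_mul]
    exact hψsmul z i c x⟩
  let f : Option ({v // v ∈ D} × Fin 3) → V → ℚ := fun o =>
    o.elim e (fun p => t (T p.1.1 p.2))
  have hli : LinearIndependent ℚ f := by
    rw [Fintype.linearIndependent_iff]
    intro g hg
    rw [Fintype.sum_option] at hg
    have h0 : g none = 0 := by
      have h1 := congrArg χl hg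
      rw [map_add, map_sum, map_zero, map_smul] at h1
      rw [Finset.sum_eq_zero, add_zero] at h1
      · have h2 : g none * χ e = 0 := h1
        rcases mul_eq_zero.1 h2 with h | h
        · exact h
        · exact absurd h he
      · rintro p -
        rw [map_smul]
        show g (some p) * χ (t (T p.1.1 p.2)) = 0
        rw [hχt _ (hT1 _ _), mul_zero]
    intro o
    cases o with
    | none => exact h0
    | some p =>
      rw [h0, zero_smul, zero_add] at hg
      have h1 := congrArg (ψl p.1.1 p.2) hg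
      rw [map_sum, map_zero, Finset.sum_eq_single p] at h1
      · rw [map_smul] at h1
        have h2 : g (some p) * ψ p.1.1 p.2 (t (T p.1.1 p.2)) = 0 := h1
        rw [hψt _ p.1.2 _ _ p.1.2, if_pos ⟨rfl, rfl⟩, mul_one] at h2
        exact h2
      · rintro q - hqp
        rw [map_smul]
        show g (some q) * ψ p.1.1 p.2 (t (T q.1.1 q.2)) = 0
        rw [hψt _ p.1.2 _ _ q.1.2, if_neg, mul_zero]
        rintro ⟨h1, h2⟩
        apply hqp
        exact Prod.ext (Subtype.ext h1.symm) h2.symm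
      · intro h
        exact absurd (Finset.mem_univ _) h
  have h1 := hli.fintype_card_le_finrank
  rw [Fintype.card_option, Fintype.card_prod, Fintype.card_coe, Fintype.card_fin,
    Module.finrank_fintype_fun_eq_card] at h1
  omega

/-- Every point is in a minimum cover. -/
lemma exists_cov (hW : World L u) (hH : Hit2 L u) (z : V) : ∃ T, MinCov L u T ∧ z ∈ T := by
  obtain ⟨A, B, C, hA, hB, hC, h⟩ := hW.near z
  obtain ⟨T, hT, h2⟩ := hH z A B C hA hB hC h
  refine ⟨T, hT, ?_⟩
  have hS : ∀ i, L ((![A, B, C] : Fin 3 → Finset V) i) := by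
    intro i
    fin_cases i
    · exact hA
    · exact hB
    · exact hC
  exact (hit_at hW.mono hS h hT 0 h2).1

/-- The end of the proof: the world of a minimal counterexample does not exist if every member of a
near packing is hit twice by a minimum cover. -/
theorem fin (hW : World L u) (hH : Hit2 L u) : False := by
  classical
  obtain ⟨ι, hι, F, q, hq0, hqL, hqs, hload⟩ := hW.frac (fun v => (u v : ℚ)) 3
    (fun v => Nat.cast_nonneg _) (by norm_num) (by
      intro U hU
      have h := hW.tau U hU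
      rw [← Nat.cast_sum]
      exact_mod_cast h)
  have hmeet : ∀ T, MinCov L u T → ∀ i, q i ≠ 0 → 1 ≤ (T ∩ F i).card := fun T hT i hi =>
    cov_live hW.mono hT.1 (hqL i hi)
  have hswap : ∀ T : Finset V, ∑ v ∈ T, ∑ i, (if v ∈ F i then q i else 0) =
      ∑ i, ((T ∩ F i).card : ℚ) * q i := by
    intro T
    rw [Finset.sum_comm]
    apply Finset.sum_congr rfl
    intro i _
    rw [Finset.sum_ite_mem, Finset.sum_const, nsmul_eq_mul]
  -- the packing is tight on every minimum cover
  have htight : ∀ T, MinCov L u T → (∑ i, q i = 3) ∧ (∀ i, q i ≠ 0 → (T ∩ F i).card = 1) ∧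
      ∀ v ∈ T, ∑ i, (if v ∈ F i then q i else 0) = (u v : ℚ) := by
    intro T hT
    have h1 : ∑ v ∈ T, ∑ i, (if v ∈ F i then q i else 0) ≤ ∑ v ∈ T, (u v : ℚ) :=
      Finset.sum_le_sum fun v _ => hload v
    have h2 : ∑ v ∈ T, (u v : ℚ) = 3 := by
      rw [← Nat.cast_sum, hT.2]
      norm_num
    rw [h2, hswap] at h1
    have h3 : ∑ i, q i ≤ ∑ i, ((T ∩ F i).card : ℚ) * q i := by
      apply Finset.sum_le_sum
      intro i _
      by_cases hi : q i = 0
      · rw [hi, mul_zero]
      · have h4 : (1 : ℚ) ≤ ((T ∩ F i).card : ℚ) := by exact_mod_cast hmeet T hT i hi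
        nlinarith [hq0 i]
    have h5 : ∑ i, q i = 3 := le_antisymm (h3.trans h1) hqs
    have h6 : ∑ i, ((T ∩ F i).card : ℚ) * q i = 3 := le_antisymm h1 (h5 ▸ h3)
    refine ⟨h5, ?_, ?_⟩
    · intro i hi
      by_contra hcon
      have h7 := hmeet T hT i hi
      have h8 : ∑ i, q i < ∑ i, ((T ∩ F i).card : ℚ) * q i := by
        apply Finset.sum_lt_sum
        · intro j _
          by_cases hj : q j = 0
          · rw [hj, mul_zero]
          · have h4 : (1 : ℚ) ≤ ((T ∩ F j).card : ℚ) := by exact_mod_cast hmeet T hT j hj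
            nlinarith [hq0 j]
        · refine ⟨i, Finset.mem_univ _, ?_⟩
          have h9 : (2 : ℚ) ≤ ((T ∩ F i).card : ℚ) := by
            have h10 : 2 ≤ (T ∩ F i).card := by omega
            exact_mod_cast h10
          have h11 : 0 < q i := lt_of_le_of_ne (hq0 i) (Ne.symm hi)
          nlinarith
      rw [h5, h6] at h8
      exact lt_irrefl _ h8
    · intro v hv
      by_contra hcon
      have h7 : ∑ v ∈ T, ∑ i, (if v ∈ F i then q i else 0) < ∑ v ∈ T, (u v : ℚ) :=
        Finset.sum_lt_sum (fun v _ => hload v) ⟨v, hv, lt_of_le_of_ne (hload v) hcon⟩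
      rw [hswap, h6, h2] at h7
      exact lt_irrefl _ h7
  -- sizes
  have hne : Nonempty V := by
    by_contra hcon
    rw [not_nonempty_iff] at hcon
    have h1 := hW.tau ∅
    apply hW.nu
    have h2 : L ∅ := by
      by_contra hcon'
      have h3 := h1 (by rwa [Finset.compl_empty, Finset.univ_eq_empty])
      simp at h3
    exact ⟨∅, ∅, ∅, h2, h2, h2, fun v => by simp [ind]⟩
  obtain ⟨z⟩ := hne
  obtain ⟨T0, hT0, -⟩ := exists_cov hW hH z
  have hsum := (htight T0 hT0).1
  have hsize : ∀ i, q i ≠ 0 → 3 * (F i).card + 1 ≤ Fintype.card V := fun i hi =>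
    core_lt hW hH (hqL i hi) (fun T hT => (htight T hT).2.1 i hi)
  have hall : ∑ v, (u v : ℚ) = ∑ i, ((F i).card : ℚ) * q i := by
    have h1 : ∑ v, (u v : ℚ) = ∑ v, ∑ i, (if v ∈ F i then q i else 0) := by
      apply Finset.sum_congr rfl
      intro v _
      obtain ⟨T, hT, hv⟩ := exists_cov hW hH v
      exact ((htight T hT).2.2 v hv).symm
    rw [h1, hswap]
    apply Finset.sum_congr rfl
    intro i _
    rw [Finset.univ_inter]
  have hbig : ((Fintype.card V : ℕ) : ℚ) ≤ ∑ v, (u v : ℚ) := by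
    have h1 : Fintype.card V ≤ ∑ v, u v := by
      have h2 : ∑ _v : V, 1 ≤ ∑ v, u v := Finset.sum_le_sum fun v _ => hW.pos v
      simpa using h2
    rw [← Nat.cast_sum]
    exact_mod_cast h1
  have hsmall : ∑ i, ((F i).card : ℚ) * q i ≤ ∑ i, (((Fintype.card V : ℕ) : ℚ) - 1) / 3 * q i := by
    apply Finset.sum_le_sum
    intro i _
    by_cases hi : q i = 0
    · rw [hi, mul_zero, mul_zero]
    · apply mul_le_mul_of_nonneg_right _ (hq0 i)
      have h1 : ((3 * (F i).card + 1 : ℕ) : ℚ) ≤ ((Fintype.card V : ℕ) : ℚ) := by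
        exact_mod_cast hsize i hi
      push_cast at h1
      linarith
  rw [← Finset.mul_sum, hsum, ← hall] at hsmall
  linarith

end Pool.Agent.T3W
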