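import Pool.Agent.T3W.Start
import Pool.Agent.T3W.End
import Pool.Agent.TQS.P_LP1
import Pool.Agent.TQS.P_LP2
import Pool.Agent.TQS.P_FRC

set_option autoImplicit false

namespace Pool.Agent.T3W

open Finset Pool.Agent.TRed

variable {V : Type} [Fintype V] [DecidableEq V] {L : Finset V → Prop}

/-- The exchange rule from packing minors. -/
lemma t2_of (hm : Mono L) (hp : ∀ I J : Finset V, Disjoint I J → (I ∪ J).Nonempty → Pck L I J)
    (h2 : NuGe L ∅ ∅ 2) : T2 L := by
  classical
  intro U hU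
  set J : Finset V := U.filter (fun v => ¬ L (U.erase v)) with hJ
  have hJU : J ⊆ U := Finset.filter_subset _ _
  have hIJ : Disjoint Uᶜ J := by
    rw [Finset.disjoint_left]
    intro v h1 h2
    exact (Finset.mem_compl.1 h1) (hJU h2)
  have hnu : NuGe L Uᶜ J 2 := by
    by_cases hne : (Uᶜ ∪ J).Nonempty
    · apply hp _ _ hIJ hne 2
      intro X hX1 hX2 hX3
      have hcases : X = ∅ ∨ ∃ u, X = {u} := by
        rcases Nat.lt_or_ge X.card 1 with h | h
        · exact Or.inl (Finset.card_eq_zero.1 (by omega))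
        · exact Or.inr (Finset.card_eq_one.1 (by omega))
      rcases hcases with rfl | ⟨v, rfl⟩
      · rwa [Finset.union_empty, compl_compl]
      · have hvU : v ∈ U := by
          by_contra hv
          exact (Finset.disjoint_left.1 hX1) (Finset.mem_singleton_self v)
            (Finset.mem_compl.2 hv)
        have hvJ : v ∉ J := fun h => (Finset.disjoint_left.1 hX2) (Finset.mem_singleton_self v) h
        have h3 : L (U.erase v) := by
          by_contra hcon
          exact hvJ (Finset.mem_filter.2 ⟨hvU, hcon⟩)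
        refine hm _ _ ?_ h3
        intro e he
        rw [Finset.mem_erase] at he
        rw [Finset.mem_compl, Finset.mem_union, not_or, Finset.mem_compl, not_not,
          Finset.mem_singleton]
        exact ⟨he.2, he.1⟩
    · rw [Finset.not_nonempty_iff_eq_empty, Finset.union_eq_empty] at hne
      rw [hne.1, hne.2]
      exact h2
  obtain ⟨E, hE1, -, hE3, hE4⟩ := hnu
  have hsub : ∀ i, E i ∪ J ⊆ U := by
    intro i
    apply Finset.union_subset _ hJU
    intro e he
    by_contra hcon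
    exact (Finset.disjoint_left.1 (hE1 i)) he (Finset.mem_compl.2 hcon)
  refine ⟨E 0 ∪ J, E 1 ∪ J, hsub 0, hsub 1, hE4 0, hE4 1, ?_⟩
  intro v hv1 hv2
  have hvJ : v ∈ J := by
    by_contra hvJ
    have h1 := (Finset.mem_union.1 hv1).resolve_right hvJ
    have h3 := (Finset.mem_union.1 hv2).resolve_right hvJ
    exact (Finset.disjoint_left.1 (hE3 0 1 (by decide))) h1 h3
  exact (Finset.mem_filter.1 hvJ).2

/-- Level three for all weights, if every world satisfies `Hit2`. -/
theorem level3 (hH : ∀ (n : ℕ) (L : Finset (Fin n) → Prop) (u : Fin n → ℕ), World L u → Hit2 L u)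
    (hm : Mono L) (ht : T2 L) (hf : FracL L) (w : V → ℕ) (hw : TauW L w 3) : Nu3 L w := by
  by_contra hcon
  obtain ⟨n, L', u, hW⟩ := exists_world hm ht hf ⟨w, hw, hcon⟩
  exact fin hW (hH n L' u hW)

/-- Fractional packings of an ideal clutter. -/
lemma frac_of_ideal (n : ℕ) (C : Finset (Finset (Fin n)))
    (hC : ∀ x ∈ Set.extremePoints ℝ
      {x : Fin n → ℝ | (∀ e, 0 ≤ x e) ∧ ∀ S ∈ C, (1 : ℝ) ≤ ∑ e ∈ S, x e},
      ∀ e, ∃ z : ℤ, x e = (z : ℝ)) : FracL (LC C) := by
  intro w s hw hs hcov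
  have hfr := Pool.Agent.TQS.p_FRC Pool.Agent.TQS.p_LP1 Pool.Agent.TQS.p_LP2 (Fin n) C
    hC w s hw hs (by
      intro U hU
      apply hcov
      rintro ⟨E, hE, hEU⟩
      obtain ⟨e, he⟩ := hU E hE
      rw [Finset.mem_inter] at he
      exact (Finset.mem_compl.1 (hEU he.1)) he.2)
  obtain ⟨y, hy0, hys, hyl⟩ := hfr
  refine ⟨Finset (Fin n), inferInstance, fun E => E, fun E => if E ∈ C then y E else 0, ?_, ?_,
    ?_, ?_⟩
  · intro E
    show 0 ≤ (if E ∈ C then y E else 0)
    split_ifs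
    · exact hy0 E
    · exact le_refl 0
  · intro E hE
    by_cases h : E ∈ C
    · exact ⟨E, h, Finset.Subset.refl _⟩
    · exact absurd (if_neg h) hE
  · rw [Finset.sum_ite_mem, Finset.univ_inter, hys]
  · intro v
    have h := hyl v
    unfold Pool.Agent.TQS.cmb at h
    refine le_trans (le_of_eq ?_) h
    have h1 : ∀ E : Finset (Fin n), (if v ∈ E then (if E ∈ C then y E else 0) else 0) =
        (if E ∈ C then (if v ∈ E then y E else 0) else 0) := by
      intro E
      split_ifs <;> rfl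
    rw [Finset.sum_congr rfl (fun E _ => h1 E), Finset.sum_ite_mem, Finset.univ_inter,
      ← Finset.sum_filter]

/-- If every world satisfies `Hit2` then no ideal minimally non-packing clutter has covering number
three. -/
theorem link
    (hH : ∀ (n : ℕ) (L : Finset (Fin n) → Prop) (u : Fin n → ℕ), World L u → Hit2 L u)
    (n : ℕ) (C : Finset (Finset (Fin n)))
    (hid : ∀ x ∈ Set.extremePoints ℝ
      {x : Fin n → ℝ | (∀ e, 0 ≤ x e) ∧ ∀ S ∈ C, (1 : ℝ) ≤ ∑ e ∈ S, x e},
      ∀ e, ∃ z : ℤ, x e = (z : ℝ))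
    (hnp : ¬ (∅ ∈ C ∨ ∃ T : Finset (Fin n), (∀ S ∈ C, (S ∩ T).Nonempty) ∧
      ∃ P ⊆ C, (∀ A ∈ P, ∀ B ∈ P, A ≠ B → Disjoint A B) ∧ P.card = T.card))
    (hmin : ∀ I J : Finset (Fin n), Disjoint I J → (I ∪ J).Nonempty →
      ∀ M : Finset (Finset (Fin n)),
        M = ((C.filter (fun S => Disjoint S I)).image (fun S => S \ J)).filter
              (fun A => ∀ B ∈ (C.filter (fun S => Disjoint S I)).image (fun S => S \ J),
                B ⊆ A → B = A) →
        (∅ ∈ M ∨ ∃ T : Finset (Fin n), (∀ S ∈ M, (S ∩ T).Nonempty) ∧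
          ∃ P ⊆ M, (∀ A ∈ P, ∀ B ∈ P, A ≠ B → Disjoint A B) ∧ P.card = T.card))
    (hT3 : ∃ T : Finset (Fin n), T.card = 3 ∧ ∀ S ∈ C, (S ∩ T).Nonempty)
    (htau : ∀ T : Finset (Fin n), (∀ S ∈ C, (S ∩ T).Nonempty) → 3 ≤ T.card) : False := by
  classical
  have hne : ∅ ∉ C := fun h => hnp (Or.inl h)
  have hm : Mono (LC C) := LC.mono C
  have hp : ∀ I J : Finset (Fin n), Disjoint I J → (I ∪ J).Nonempty → Pck (LC C) I J := by
    intro I J h1 h2
    refine (conv C I J h1 _ ?_ ?_).1 (hmin I J h1 h2 _ rfl)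
    · intro A hA
      obtain ⟨S, hS, h⟩ := Finset.mem_image.1 (Finset.mem_filter.1 hA).1
      exact ⟨S, (Finset.mem_filter.1 hS).1, (Finset.mem_filter.1 hS).2, h.symm⟩
    · intro S hS hSI
      exact exists_min _ _ (Finset.mem_image.2 ⟨S, Finset.mem_filter.2 ⟨hS, hSI⟩, rfl⟩)
  have hcovL : ∀ T : Finset (Fin n), ¬ LC C Tᶜ → ∀ S ∈ C, (S ∩ T).Nonempty := by
    intro T h E hE
    by_contra hcon
    rw [Finset.not_nonempty_iff_eq_empty] at hcon
    apply h
    refine ⟨E, hE, fun e he => Finset.mem_compl.2 (fun heT => ?_)⟩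
    have h1 : e ∈ E ∩ T := Finset.mem_inter.2 ⟨he, heT⟩
    rw [hcon] at h1
    exact Finset.notMem_empty _ h1
  have htau' : TauGe (LC C) ∅ ∅ 3 := by
    intro X _ _ hX
    rw [Finset.empty_union]
    by_contra hcon
    have := htau X (hcovL X hcon)
    omega
  -- two disjoint live sets
  obtain ⟨T, hTc, hT⟩ := hT3
  have hTne : T.Nonempty := by
    rw [← Finset.card_pos, hTc]
    norm_num
  obtain ⟨x, hx⟩ := hTne
  have h2 : NuGe (LC C) ∅ ∅ 2 := by
    obtain ⟨E, -, -, e3, e4⟩ := hp {x} ∅ (Finset.disjoint_empty_right _) ⟨x, by simp⟩ 2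
      (fun X _ _ hX => by
        refine hm _ _ ?_ (htau' (insert x X) (Finset.disjoint_empty_right _)
          (Finset.disjoint_empty_right _) (by
            have := Finset.card_insert_le x X
            omega))
        rw [Finset.empty_union, Finset.insert_eq])
    exact ⟨E, fun _ => Finset.disjoint_empty_right _, fun _ => Finset.disjoint_empty_right _,
      e3, e4⟩
  have hT2 : T2 (LC C) := t2_of hm hp h2
  have hF := frac_of_ideal n C hid
  have hw : TauW (LC C) (fun _ => 1) 3 := by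
    intro X hX
    rw [Finset.sum_const, smul_eq_mul, mul_one]
    exact htau X (hcovL X hX)
  obtain ⟨A, B, D, hA, hB, hD, hs⟩ := level3 hH hm hT2 hF (fun _ => 1) hw
  have hs' : ∀ v, ind A v + ind B v + ind D v ≤ 1 := hs
  obtain ⟨A', hA', hAA⟩ := hA
  obtain ⟨B', hB', hBB⟩ := hB
  obtain ⟨D', hD', hDD⟩ := hD
  have hd : ∀ X Y : Finset (Fin n), (∀ v, ind X v + ind Y v ≤ 1) → Disjoint X Y := by
    intro X Y h
    rw [Finset.disjoint_left]
    intro v h1 h3
    have h4 := h v
    rw [ind_pos h1, ind_pos h3] at h4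
    omega
  have hAB : Disjoint A' B' := (hd A B (fun v => by have := hs' v; omega)).mono hAA hBB
  have hAD : Disjoint A' D' := (hd A D (fun v => by have := hs' v; omega)).mono hAA hDD
  have hBD : Disjoint B' D' := (hd B D (fun v => by have := hs' v; omega)).mono hBB hDD
  have hnn : ∀ X ∈ C, X ≠ ∅ := fun X hX h => hne (h ▸ hX)
  have hne1 : A' ≠ B' := by
    rintro rfl
    rw [disjoint_self] at hAB
    exact hnn _ hA' hAB
  have hne2 : A' ≠ D' := by
    rintro rfl
    rw [disjoint_self] at hAD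
    exact hnn _ hA' hAD
  have hne3 : B' ≠ D' := by
    rintro rfl
    rw [disjoint_self] at hBD
    exact hnn _ hB' hBD
  apply hnp
  refine Or.inr ⟨T, hT, {A', B', D'}, ?_, ?_, ?_⟩
  · intro X hX
    simp only [Finset.mem_insert, Finset.mem_singleton] at hX
    rcases hX with rfl | rfl | rfl
    · exact hA'
    · exact hB'
    · exact hD'
  · intro X hX Y hY hXY
    simp only [Finset.mem_insert, Finset.mem_singleton] at hX hY
    rcases hX with rfl | rfl | rfl <;> rcases hY with rfl | rfl | rfl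
    · exact absurd rfl hXY
    · exact hAB
    · exact hAD
    · exact hAB.symm
    · exact absurd rfl hXY
    · exact hBD
    · exact hAD.symm
    · exact hBD.symm
    · exact absurd rfl hXY
  · rw [Finset.card_eq_three.2 ⟨A', B', D', hne1, hne2, hne3, rfl⟩, hTc]

end Pool.Agent.T3W
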