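import Pool.Agent.T3W.Link

/-!
# Project T3W: the statement (P) is enough

`Pach` is the statement (P): an upset with the exchange rule, no three disjoint live sets and a
near packing at every point has only live sets with at least `(n + 1) / 3` points.
-/

set_option autoImplicit false

namespace Pool.Agent.T3W

open Finset Pool.Agent.TRed

/-- Statement (P). -/
def Pach : Prop :=
  ∀ (V : Type) [Fintype V] [DecidableEq V] (L : Finset V → Prop), Mono L → T2 L →
    ¬ Nu3 L (fun _ => 1) →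
    (∀ z : V, ∃ A B C : Finset V, L A ∧ L B ∧ L C ∧
      ∀ v, ind A v + ind B v + ind C v ≤ 1 + (if v = z then 1 else 0)) →
    ∀ X, L X → Fintype.card V + 1 ≤ 3 * X.card

variable {V : Type} [Fintype V] [DecidableEq V] {L : Finset V → Prop} {u : V → ℕ}

/-- The replicated ground set. -/
abbrev Rep (u : V → ℕ) : Type := Σ v : V, Fin (u v)

/-- The replicated upset. -/
def LRep (L : Finset V → Prop) (u : V → ℕ) (S : Finset (Rep u)) : Prop := L (S.image Sigma.fst)

omit [Fintype V] in
lemma LRep_mono (hm : Mono L) : Mono (LRep L u) := fun _ _ hAB hA =>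
  hm _ _ (Finset.image_subset_image hAB) hA

omit [Fintype V] in
lemma LRep_image (f : V → Rep u) (A : Finset V) (hf : ∀ v ∈ A, (f v).1 = v) (hA : L A) :
    LRep L u (A.image f) := by
  unfold LRep
  rw [Finset.image_image]
  have h : A.image (Sigma.fst ∘ f) = A := by
    ext v
    rw [Finset.mem_image]
    constructor
    · rintro ⟨w, hw, rfl⟩
      rw [Function.comp_apply, hf w hw]
      exact hw
    · intro hv
      exact ⟨v, hv, hf v hv⟩
  rwa [h]

omit [Fintype V] in
lemma LRep_t2 (hm : Mono L) (ht : T2 L) (hpos : ∀ v, 1 ≤ u v) : T2 (LRep L u) := by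
  classical
  intro U hU
  obtain ⟨P, Q, hP, hQ, hLP, hLQ, hPQ⟩ := ht (U.image Sigma.fst) hU
  have hex : ∀ v, ∃ e : Rep u, e.1 = v ∧ (v ∈ U.image Sigma.fst → e ∈ U) := by
    intro v
    by_cases hv : v ∈ U.image Sigma.fst
    · obtain ⟨e, he, hev⟩ := Finset.mem_image.1 hv
      exact ⟨e, hev, fun _ => he⟩
    · exact ⟨⟨v, ⟨0, hpos v⟩⟩, rfl, fun h => absurd h hv⟩
  choose f hf1 hf2 using hex
  have hex2 : ∀ v, ∃ e : Rep u, e.1 = v ∧ (v ∈ U.image Sigma.fst → e ∈ U) ∧
      (e = f v → ∀ e' ∈ U, e'.1 = v → e' = f v) := by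
    intro v
    by_cases hv : ∃ e ∈ U, e.1 = v ∧ e ≠ f v
    · obtain ⟨e, he, hev, hne⟩ := hv
      exact ⟨e, hev, fun _ => he, fun h => absurd h hne⟩
    · refine ⟨f v, hf1 v, hf2 v, fun _ e' he' hev => ?_⟩
      by_contra hcon
      exact hv ⟨e', he', hev, hcon⟩
  choose g hg1 hg2 hg3 using hex2
  refine ⟨P.image f, Q.image g, ?_, ?_, LRep_image f P (fun v _ => hf1 v) hLP,
    LRep_image g Q (fun v _ => hg1 v) hLQ, ?_⟩
  · intro e he
    obtain ⟨v, hv, rfl⟩ := Finset.mem_image.1 he
    exact hf2 v (hP hv)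
  · intro e he
    obtain ⟨v, hv, rfl⟩ := Finset.mem_image.1 he
    exact hg2 v (hQ hv)
  · intro e he1 he2
    obtain ⟨v, hv, rfl⟩ := Finset.mem_image.1 he1
    obtain ⟨w, hw, hwv⟩ := Finset.mem_image.1 he2
    have hvw : w = v := by
      have h := congrArg Sigma.fst hwv
      rwa [hg1, hf1] at h
    subst hvw
    intro hcon
    apply hPQ w hv hw
    refine hm _ _ ?_ hcon
    intro x hx
    obtain ⟨e, he, rfl⟩ := Finset.mem_image.1 hx
    rw [Finset.mem_erase] at he ⊢
    refine ⟨?_, Finset.mem_image_of_mem _ he.2⟩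
    intro hew
    exact he.1 (hg3 w hwv e he.2 hew)

omit [Fintype V] in
lemma LRep_nu (hnu : ¬ Nu3 L u) : ¬ Nu3 (LRep L u) (fun _ => 1) := by
  classical
  rintro ⟨A, B, C, hA, hB, hC, h⟩
  apply hnu
  refine ⟨A.image Sigma.fst, B.image Sigma.fst, C.image Sigma.fst, hA, hB, hC, ?_⟩
  intro v
  have key : ∀ S : Finset (Rep u),
      ind (S.image Sigma.fst) v ≤ ∑ j : Fin (u v), ind S (⟨v, j⟩ : Rep u) := by
    intro S
    by_cases hv : v ∈ S.image Sigma.fst
    · obtain ⟨e, he, hev⟩ := Finset.mem_image.1 hv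
      obtain ⟨w, j⟩ := e
      subst hev
      rw [ind_pos hv]
      have h1 : ind S (⟨w, j⟩ : Rep u) ≤ ∑ j : Fin (u w), ind S (⟨w, j⟩ : Rep u) :=
        Finset.single_le_sum (f := fun j : Fin (u w) => ind S (⟨w, j⟩ : Rep u))
          (fun _ _ => Nat.zero_le _) (Finset.mem_univ j)
      rwa [ind_pos he] at h1
    · rw [ind_neg hv]
      exact Nat.zero_le _
  have hA' := key A
  have hB' := key B
  have hC' := key C
  have hsum : ∑ j : Fin (u v), (ind A (⟨v, j⟩ : Rep u) + ind B (⟨v, j⟩ : Rep u) +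
      ind C (⟨v, j⟩ : Rep u)) ≤ ∑ _j : Fin (u v), 1 := Finset.sum_le_sum fun j _ => h ⟨v, j⟩
  rw [Finset.sum_add_distrib, Finset.sum_add_distrib, Finset.sum_const, Finset.card_univ,
    Fintype.card_fin, smul_eq_mul, mul_one] at hsum
  omega

lemma fiber1 (k : ℕ) (h1 : 1 ≤ k) (h2 : k ≤ 2) (x y z t : ℕ) (i : Fin k)
    (hx : x ≤ 1) (hy : y ≤ 1) (hz : z ≤ 1) (ht : t ≤ 1) (hs : x + y + z ≤ k + t) :
    ∃ a b c : Fin k, ∀ j, (if a = j then x else 0) + (if b = j then y else 0) +
      (if c = j then z else 0) ≤ 1 + (if j = i then t else 0) := by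
  obtain rfl | rfl : k = 1 ∨ k = 2 := by omega
  · refine ⟨i, i, i, fun j => ?_⟩
    have hij : i = j := Subsingleton.elim _ _
    subst hij
    simp only [if_true]
    exact hs
  · have hx' : x = 0 ∨ x = 1 := by omega
    have hy' : y = 0 ∨ y = 1 := by omega
    have hz' : z = 0 ∨ z = 1 := by omega
    have ht' : t = 0 ∨ t = 1 := by omega
    rcases hx' with rfl | rfl <;> rcases hy' with rfl | rfl <;> rcases hz' with rfl | rfl <;>
      rcases ht' with rfl | rfl <;> revert i <;> first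
        | decide
        | (intro i; omega)

omit [Fintype V] in
lemma LRep_near (hpos : ∀ v, 1 ≤ u v) (hle : ∀ v, u v ≤ 2)
    (hnear : ∀ z : V, ∃ A B C : Finset V, L A ∧ L B ∧ L C ∧
      ∀ v, ind A v + ind B v + ind C v ≤ u v + (if v = z then 1 else 0)) (z : Rep u) :
    ∃ A B C : Finset (Rep u), LRep L u A ∧ LRep L u B ∧ LRep L u C ∧
      ∀ v, ind A v + ind B v + ind C v ≤ 1 + (if v = z then 1 else 0) := by
  classical
  obtain ⟨A, B, C, hA, hB, hC, h⟩ := hnear z.1
  have hind : ∀ (S : Finset V) v, ind S v ≤ 1 := by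
    intro S v
    unfold ind
    split_ifs <;> omega
  have hex : ∀ v, ∃ a b c : Fin (u v), ∀ j : Fin (u v), (if a = j then ind A v else 0) +
      (if b = j then ind B v else 0) + (if c = j then ind C v else 0) ≤
      1 + (if (⟨v, j⟩ : Rep u) = z then 1 else 0) := by
    intro v
    by_cases hv : v = z.1
    · subst hv
      obtain ⟨a, b, c, habc⟩ := fiber1 (u z.1) (hpos _) (hle _) (ind A z.1) (ind B z.1) (ind C z.1)
        1 z.2 (hind _ _) (hind _ _) (hind _ _) le_rfl (by have := h z.1; rwa [if_pos rfl] at this)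
      refine ⟨a, b, c, fun j => (habc j).trans ?_⟩
      by_cases hj : j = z.2
      · subst hj
        rw [if_pos rfl, if_pos rfl]
      · rw [if_neg hj]
        exact Nat.add_le_add_left (Nat.zero_le _) _
    · obtain ⟨a, b, c, habc⟩ := fiber1 (u v) (hpos _) (hle _) (ind A v) (ind B v) (ind C v)
        0 ⟨0, hpos v⟩ (hind _ _) (hind _ _) (hind _ _) (Nat.zero_le _)
        (by have := h v; rwa [if_neg hv] at this)
      refine ⟨a, b, c, fun j => (habc j).trans ?_⟩
      have h0 : (if j = (⟨0, hpos v⟩ : Fin (u v)) then 0 else 0) = 0 := by split_ifs <;> rfl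
      rw [h0]
      exact Nat.add_le_add_left (Nat.zero_le _) _
  choose a b c habc using hex
  have hkey : ∀ (S : Finset V) (s : ∀ v, Fin (u v)) (v : V) (j : Fin (u v)),
      ind (S.image fun v => (⟨v, s v⟩ : Rep u)) (⟨v, j⟩ : Rep u) =
        if s v = j then ind S v else 0 := by
    intro S s v j
    by_cases hmem : (⟨v, j⟩ : Rep u) ∈ S.image fun v => (⟨v, s v⟩ : Rep u)
    · rw [ind_pos hmem]
      obtain ⟨w, hw, hwv⟩ := Finset.mem_image.1 hmem
      have h1 : w = v := congrArg Sigma.fst hwv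
      subst h1
      have h2 : s w = j := by
        have h3 := hwv
        simp only [Sigma.mk.injEq, heq_eq_eq, true_and] at h3
        exact h3
      rw [if_pos h2, ind_pos hw]
    · rw [ind_neg hmem]
      by_cases hs : s v = j
      · rw [if_pos hs]
        by_cases hv : v ∈ S
        · exfalso
          apply hmem
          refine Finset.mem_image.2 ⟨v, hv, ?_⟩
          rw [hs]
        · rw [ind_neg hv]
      · rw [if_neg hs]
  refine ⟨A.image fun v => ⟨v, a v⟩, B.image fun v => ⟨v, b v⟩, C.image fun v => ⟨v, c v⟩,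
    LRep_image _ A (fun _ _ => rfl) hA, LRep_image _ B (fun _ _ => rfl) hB,
    LRep_image _ C (fun _ _ => rfl) hC, ?_⟩
  rintro ⟨v, j⟩
  rw [hkey, hkey, hkey]
  exact habc v j

/-- Statement (P) excludes the world of a minimal counterexample. -/
theorem World.false_of_pach (hP : Pach) (h : World L u) : False := by
  classical
  have hsize : ∀ X, L X → (∑ v, u v) + 1 ≤ 3 * X.card := by
    intro X hX
    have h1 := hP (Rep u) (LRep L u) (LRep_mono h.mono) (LRep_t2 h.mono h.t2 h.pos)
      (LRep_nu h.nu) (LRep_near h.pos h.le2 h.near)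
      (X.image fun v => ⟨v, ⟨0, h.pos v⟩⟩) (LRep_image _ X (fun _ _ => rfl) hX)
    rw [Fintype.card_sigma] at h1
    simp only [Fintype.card_fin] at h1
    exact h1.trans (Nat.mul_le_mul_left _ Finset.card_image_le)
  obtain ⟨ι, hι, F, q, hq0, hqL, hqs, hload⟩ := h.frac (fun v => (u v : ℚ)) 3
    (fun v => Nat.cast_nonneg _) (by norm_num) (by
      intro U hU
      have h := h.tau U hU
      rw [← Nat.cast_sum]
      exact_mod_cast h)
  have h1 : ∑ i, ((F i).card : ℚ) * q i ≤ ∑ v, (u v : ℚ) := by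
    have h2 : ∑ v, ∑ i, (if v ∈ F i then q i else 0) ≤ ∑ v, (u v : ℚ) :=
      Finset.sum_le_sum fun v _ => hload v
    rw [Finset.sum_comm] at h2
    refine le_trans (le_of_eq ?_) h2
    apply Finset.sum_congr rfl
    intro i _
    rw [Finset.sum_ite_mem, Finset.univ_inter, Finset.sum_const, nsmul_eq_mul]
  have h2 : ((∑ v, u v : ℕ) : ℚ) + 1 ≤ ∑ i, ((F i).card : ℚ) * q i := by
    have h3 : ∀ i, (((∑ v, u v : ℕ) : ℚ) + 1) / 3 * q i ≤ ((F i).card : ℚ) * q i := by
      intro i
      by_cases hi : q i = 0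
      · rw [hi, mul_zero, mul_zero]
      · apply mul_le_mul_of_nonneg_right _ (hq0 i)
        have h4 := hsize (F i) (hqL i hi)
        have h5 : ((∑ v, u v : ℕ) : ℚ) + 1 ≤ 3 * ((F i).card : ℚ) := by exact_mod_cast h4
        linarith
    have h4 := Finset.sum_le_sum (fun i (_ : i ∈ Finset.univ) => h3 i)
    rw [← Finset.mul_sum] at h4
    have h5 : (0 : ℚ) ≤ (((∑ v, u v : ℕ) : ℚ) + 1) / 3 := by positivity
    nlinarith
  push_cast at h2
  linarith

/-- Statement (P) gives the level three property of all ideal upsets with the exchange rule. -/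
theorem level3_of_pach (hP : Pach) (hm : Mono L) (ht : T2 L) (hf : FracL L) (w : V → ℕ)
    (hw : TauW L w 3) : Nu3 L w :=
  level3 (fun _ _ _ hW => (hW.false_of_pach hP).elim) hm ht hf w hw

end Pool.Agent.T3W
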