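import Pool.Agent.T3W.Defs
import Pool.Agent.TRed.Conv

set_option autoImplicit false

namespace Pool.Agent.T3W

open Finset Pool.Agent.TRed

variable {V : Type} [Fintype V] [DecidableEq V] {L : Finset V → Prop}

/-- A bad weight. -/
def Bad (L : Finset V → Prop) (w : V → ℕ) : Prop := TauW L w 3 ∧ ¬ Nu3 L w

/-- The cost of a value. -/
def gg (K a : ℕ) : ℕ := if a = 0 ∨ 3 ≤ a then 0 else if a = 1 then K else K - 1

/-- The cost of a weight. -/
def cost (w : V → ℕ) : ℕ := ∑ v, gg (Fintype.card V + 2) (w v)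

/-- A cheapest bad weight. -/
lemma exists_cheap (h : ∃ w, Bad L w) : ∃ w, Bad L w ∧ ∀ w', Bad L w' → cost w ≤ cost w' := by
  classical
  have hex : ∃ c, ∃ w, Bad L w ∧ cost w = c := by
    obtain ⟨w, hw⟩ := h
    exact ⟨_, w, hw, rfl⟩
  obtain ⟨w, hw, hc⟩ := Nat.find_spec hex
  refine ⟨w, hw, fun w' hw' => ?_⟩
  rw [hc]
  exact Nat.find_min' hex ⟨w', hw', rfl⟩

lemma gg_le (K a : ℕ) (ha : a = 0 ∨ 3 ≤ a) : gg K a = 0 := if_pos ha

lemma gg_active (K a : ℕ) (h1 : 1 ≤ a) (h2 : a ≤ 2) (hK : 1 ≤ K) : gg K a + a = K + 1 := by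
  unfold gg
  rw [if_neg (by omega)]
  split_ifs <;> omega

/-- Changing one value of a cheapest bad weight to zero or at least three, or making the sum of the
active values larger, gives a cheaper weight. -/
lemma cost_lt (w w' : V → ℕ) (hin : ∀ v, (w v = 0 ∨ 3 ≤ w v) → (w' v = 0 ∨ 3 ≤ w' v))
    (h : (∃ v, (1 ≤ w v ∧ w v ≤ 2) ∧ (w' v = 0 ∨ 3 ≤ w' v)) ∨
      ((∀ v, (1 ≤ w v ∧ w v ≤ 2) → (1 ≤ w' v ∧ w' v ≤ 2)) ∧
        ∑ v ∈ Finset.univ.filter (fun v => 1 ≤ w v ∧ w v ≤ 2), w v <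
          ∑ v ∈ Finset.univ.filter (fun v => 1 ≤ w v ∧ w v ≤ 2), w' v)) :
    cost w' < cost w := by
  classical
  set K := Fintype.card V + 2 with hK
  have hsplit : ∀ x : V → ℕ, (∀ v, (w v = 0 ∨ 3 ≤ w v) → (x v = 0 ∨ 3 ≤ x v)) →
      cost x = ∑ v ∈ Finset.univ.filter (fun v => 1 ≤ w v ∧ w v ≤ 2), gg K (x v) := by
    intro x hx
    unfold cost
    rw [← Finset.sum_filter_add_sum_filter_not Finset.univ (fun v => 1 ≤ w v ∧ w v ≤ 2)]
    rw [Finset.sum_eq_zero (s := Finset.univ.filter (fun v => ¬ (1 ≤ w v ∧ w v ≤ 2))), add_zero]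
    intro v hv
    rw [Finset.mem_filter] at hv
    exact gg_le _ _ (hx v (by omega))
  rw [hsplit w (fun v hv => hv), hsplit w' hin]
  set A := Finset.univ.filter (fun v => 1 ≤ w v ∧ w v ≤ 2) with hA
  have hmem : ∀ v, v ∈ A ↔ (1 ≤ w v ∧ w v ≤ 2) := fun v => by
    rw [hA, Finset.mem_filter]
    exact ⟨fun h => h.2, fun h => ⟨Finset.mem_univ _, h⟩⟩
  have hAc : A.card ≤ Fintype.card V := Finset.card_le_univ A
  rcases h with ⟨v, hv, hv'⟩ | ⟨h1, h2⟩
  · have hvA : v ∈ A := (hmem v).2 hv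
    have e1 : ∑ x ∈ A, gg K (w' x) = ∑ x ∈ A.erase v, gg K (w' x) := by
      rw [← Finset.add_sum_erase A _ hvA, gg_le _ _ hv', zero_add]
    have e2 : ∑ x ∈ A.erase v, gg K (w' x) ≤ ∑ x ∈ A.erase v, K := by
      apply Finset.sum_le_sum
      intro x _
      unfold gg
      split_ifs <;> omega
    have e3 : ∑ x ∈ A, (K - 1) ≤ ∑ x ∈ A, gg K (w x) := by
      apply Finset.sum_le_sum
      intro x hx
      have h3 := (hmem x).1 hx
      have h4 := gg_active K (w x) h3.1 h3.2 (by omega)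
      omega
    rw [Finset.sum_const, smul_eq_mul] at e2 e3
    have e4 : (A.erase v).card = A.card - 1 := Finset.card_erase_of_mem hvA
    have e5 : 1 ≤ A.card := Finset.card_pos.2 ⟨v, hvA⟩
    rw [e1]
    refine lt_of_le_of_lt e2 (lt_of_lt_of_le ?_ e3)
    rw [e4]
    obtain ⟨a, ha⟩ : ∃ a, A.card = a + 1 := ⟨A.card - 1, by omega⟩
    obtain ⟨k, hk⟩ : ∃ k, K = k + 1 := ⟨K - 1, by omega⟩
    rw [ha, hk, Nat.add_sub_cancel, Nat.add_sub_cancel]
    have h6 : a < k := by omega
    nlinarith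
  · have e1 : ∑ x ∈ A, (gg K (w' x) + w' x) = ∑ x ∈ A, (K + 1) := by
      apply Finset.sum_congr rfl
      intro x hx
      have h3 := h1 x ((hmem x).1 hx)
      exact gg_active K (w' x) h3.1 h3.2 (by omega)
    have e2 : ∑ x ∈ A, (gg K (w x) + w x) = ∑ x ∈ A, (K + 1) := by
      apply Finset.sum_congr rfl
      intro x hx
      have h3 := (hmem x).1 hx
      exact gg_active K (w x) h3.1 h3.2 (by omega)
    rw [Finset.sum_add_distrib] at e1 e2
    omega

/-- The world of a minimal counterexample. -/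
theorem exists_world (hm : Mono L) (ht : T2 L) (hf : FracL L) (h : ∃ w, Bad L w) :
    ∃ (n : ℕ) (L' : Finset (Fin n) → Prop) (u : Fin n → ℕ), World L' u := by
  classical
  obtain ⟨w, hw, hmin⟩ := exists_cheap h
  let I : Finset V := Finset.univ.filter (fun v => w v = 0)
  let J : Finset V := Finset.univ.filter (fun v => 3 ≤ w v)
  have hI : ∀ v, v ∈ I ↔ w v = 0 := fun v => by simp [I]
  have hJ : ∀ v, v ∈ J ↔ 3 ≤ w v := fun v => by simp [J]
  have hIJ : Disjoint I J := by
    rw [Finset.disjoint_left]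
    intro v h1 h2
    rw [hI] at h1
    rw [hJ] at h2
    omega
  let ψ : (((I ∪ J)ᶜ : Finset V) : Type) ≃ Fin (I ∪ J)ᶜ.card := Finset.equivFinOfCardEq rfl
  let φ : Fin (I ∪ J)ᶜ.card ↪ V := ψ.symm.toEmbedding.trans (Function.Embedding.subtype _)
  have hφ : ∀ v, (∃ u, φ u = v) ↔ v ∉ I ∪ J := by
    intro v
    constructor
    · rintro ⟨u, rfl⟩
      exact Finset.mem_compl.1 (ψ.symm u).2
    · intro hv
      refine ⟨ψ ⟨v, Finset.mem_compl.2 hv⟩, ?_⟩
      show (ψ.symm (ψ ⟨v, Finset.mem_compl.2 hv⟩)).1 = v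
      rw [Equiv.symm_apply_apply]
  have hφw : ∀ a, 1 ≤ w (φ a) ∧ w (φ a) ≤ 2 := by
    intro a
    have h1 := (hφ (φ a)).1 ⟨a, rfl⟩
    rw [Finset.mem_union, hI, hJ] at h1
    omega
  -- extension of a weight
  let ext : (Fin (I ∪ J)ᶜ.card → ℕ) → V → ℕ := fun x v =>
    if h : v ∈ (I ∪ J)ᶜ then x (ψ ⟨v, h⟩) else w v
  have hext1 : ∀ x a, ext x (φ a) = x a := by
    intro x a
    have h1 : φ a ∈ (I ∪ J)ᶜ := (ψ.symm a).2
    show (if h : φ a ∈ (I ∪ J)ᶜ then x (ψ ⟨φ a, h⟩) else w (φ a)) = x a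
    rw [dif_pos h1]
    congr 1
    have h2 : (⟨φ a, h1⟩ : (((I ∪ J)ᶜ : Finset V) : Type)) = ψ.symm a := Subtype.ext rfl
    rw [h2, Equiv.apply_symm_apply]
  have hext2 : ∀ x v, v ∈ I ∪ J → ext x v = w v := by
    intro x v hv
    show (if h : v ∈ (I ∪ J)ᶜ then x (ψ ⟨v, h⟩) else w v) = w v
    rw [dif_neg (fun h => (Finset.mem_compl.1 h) hv)]
  -- covering numbers
  have htau : ∀ x, TauW (LN L J φ) x 3 → TauW L (ext x) 3 := by
    intro x hx X hX
    by_cases hXJ : ∃ j ∈ X, j ∈ J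
    · obtain ⟨j, hjX, hj⟩ := hXJ
      have h1 := Finset.single_le_sum (f := ext x) (fun v _ => Nat.zero_le _) hjX
      rw [hext2 x j (Finset.mem_union_right _ hj)] at h1
      exact ((hJ j).1 hj).trans h1
    · push Not at hXJ
      have h1 : 3 ≤ ∑ a ∈ Finset.univ.filter (fun a => φ a ∈ X), x a := by
        apply hx
        intro hL
        apply hX
        refine hm _ _ ?_ hL
        intro e he
        rw [Finset.mem_compl]
        rcases Finset.mem_union.1 he with h' | h'
        · obtain ⟨a, ha, rfl⟩ := Finset.mem_map.1 h'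
          intro hcon
          exact (Finset.mem_compl.1 ha) (Finset.mem_filter.2 ⟨Finset.mem_univ _, hcon⟩)
        · exact fun hcon => hXJ e hcon h'
      refine h1.trans ?_
      have h2 : ∑ a ∈ Finset.univ.filter (fun a => φ a ∈ X), x a =
          ∑ v ∈ (Finset.univ.filter (fun a => φ a ∈ X)).map φ, ext x v := by
        rw [Finset.sum_map]
        exact Finset.sum_congr rfl (fun a _ => (hext1 x a).symm)
      rw [h2]
      apply Finset.sum_le_sum_of_subset
      intro e he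
      obtain ⟨a, ha, rfl⟩ := Finset.mem_map.1 he
      exact (Finset.mem_filter.1 ha).2
  -- packings
  have hsub : ∀ A : Finset V, (∀ v ∈ A, w v ≠ 0) →
      A ⊆ (Finset.univ.filter (fun a => φ a ∈ A)).map φ ∪ J := by
    intro A hA v hv
    rw [Finset.mem_union]
    by_cases hvJ : v ∈ J
    · exact Or.inr hvJ
    · obtain ⟨a, rfl⟩ := (hφ v).2 (by
        rw [Finset.mem_union, not_or]
        exact ⟨fun h => hA v hv ((hI v).1 h), hvJ⟩)
      exact Or.inl (Finset.mem_map.2 ⟨a, Finset.mem_filter.2 ⟨Finset.mem_univ _, hv⟩, rfl⟩)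
  have hind : ∀ (A : Finset V) a, ind (Finset.univ.filter (fun a => φ a ∈ A)) a =
      ind A (φ a) := by
    intro A a
    unfold ind
    simp
  have hnu : ∀ x, Nu3 L (ext x) → Nu3 (LN L J φ) x := by
    rintro x ⟨A, B, C, hA, hB, hC, hs⟩
    have h0 : ∀ v, w v = 0 → ind A v + ind B v + ind C v = 0 := by
      intro v hv
      have h1 := hs v
      rw [hext2 x v (Finset.mem_union_left _ ((hI v).2 hv)), hv] at h1
      omega
    have hA0 : ∀ v ∈ A, w v ≠ 0 := fun v hv h => by
      have h1 := h0 v h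
      rw [ind_pos hv] at h1
      omega
    have hB0 : ∀ v ∈ B, w v ≠ 0 := fun v hv h => by
      have h1 := h0 v h
      rw [ind_pos hv] at h1
      omega
    have hC0 : ∀ v ∈ C, w v ≠ 0 := fun v hv h => by
      have h1 := h0 v h
      rw [ind_pos hv] at h1
      omega
    refine ⟨_, _, _, hm _ _ (hsub A hA0) hA, hm _ _ (hsub B hB0) hB, hm _ _ (hsub C hC0) hC,
      fun a => ?_⟩
    rw [hind, hind, hind]
    have h1 := hs (φ a)
    rwa [hext1] at h1
  refine ⟨_, LN L J φ, fun a => w (φ a), ?_⟩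
  constructor
  · exact LN.mono _ _ _ hm
  · -- the exchange rule
    intro U hU
    obtain ⟨P, Q, hP, hQ, hLP, hLQ, hd⟩ := ht _ hU
    have hsub' : ∀ P : Finset V, P ⊆ U.map φ ∪ J →
        P ⊆ (Finset.univ.filter (fun a => φ a ∈ P)).map φ ∪ J := by
      intro P hP v hv
      rcases Finset.mem_union.1 (hP hv) with h' | h'
      · obtain ⟨a, ha, rfl⟩ := Finset.mem_map.1 h'
        exact Finset.mem_union_left _
          (Finset.mem_map.2 ⟨a, Finset.mem_filter.2 ⟨Finset.mem_univ _, hv⟩, rfl⟩)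
      · exact Finset.mem_union_right _ h'
    have hsU : ∀ P : Finset V, P ⊆ U.map φ ∪ J → Finset.univ.filter (fun a => φ a ∈ P) ⊆ U := by
      intro P hP a ha
      rw [Finset.mem_filter] at ha
      rcases Finset.mem_union.1 (hP ha.2) with h' | h'
      · obtain ⟨b, hb, hba⟩ := Finset.mem_map.1 h'
        rw [φ.injective hba] at hb
        exact hb
      · exact absurd (Finset.mem_union_right I h') ((hφ _).1 ⟨a, rfl⟩)
    refine ⟨_, _, hsU P hP, hsU Q hQ, hm _ _ (hsub' P hP) hLP, hm _ _ (hsub' Q hQ) hLQ, ?_⟩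
    intro a ha1 ha2 hL
    refine hd (φ a) (Finset.mem_filter.1 ha1).2 (Finset.mem_filter.1 ha2).2 (hm _ _ ?_ hL)
    intro e he
    rw [Finset.mem_erase]
    rcases Finset.mem_union.1 he with h' | h'
    · obtain ⟨b, hb, rfl⟩ := Finset.mem_map.1 h'
      rw [Finset.mem_erase] at hb
      exact ⟨fun h => hb.1 (φ.injective h),
        Finset.mem_union_left _ (Finset.mem_map.2 ⟨b, hb.2, rfl⟩)⟩
    · refine ⟨?_, Finset.mem_union_right _ h'⟩
      rintro rfl
      exact (hφ _).1 ⟨a, rfl⟩ (Finset.mem_union_right _ h')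
  · exact frac_transfer _ hm hIJ hφ hf
  · exact fun a => (hφw a).1
  · exact fun a => (hφw a).2
  · intro X hX
    have h1 : ¬ L (I ∪ X.map φ)ᶜ := by
      rw [compl_map hIJ hφ]
      exact hX
    have h2 := hw.1 _ h1
    rw [Finset.sum_union] at h2
    · rw [Finset.sum_eq_zero (s := I), zero_add, Finset.sum_map] at h2
      · exact h2
      · intro v hv
        exact (hI v).1 hv
    · rw [Finset.disjoint_left]
      intro v hv hv'
      obtain ⟨a, -, rfl⟩ := Finset.mem_map.1 hv'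
      exact (hφ _).1 ⟨a, rfl⟩ (Finset.mem_union_left _ hv)
  · rintro ⟨A, B, C, hA, hB, hC, hs⟩
    apply hw.2
    refine ⟨_, _, _, hA, hB, hC, fun v => ?_⟩
    have h3 : ∀ A : Finset (Fin (I ∪ J)ᶜ.card), ind (A.map φ ∪ J) v ≤ 1 := fun A => by
      unfold ind
      split_ifs <;> omega
    by_cases hvJ : v ∈ J
    · have h1 := (hJ v).1 hvJ
      have := h3 A
      have := h3 B
      have := h3 C
      omega
    · by_cases hvI : v ∈ I
      · have h4 : ∀ A : Finset (Fin (I ∪ J)ᶜ.card), ind (A.map φ ∪ J) v = 0 := fun A => by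
          apply ind_neg
          rw [Finset.mem_union, not_or]
          refine ⟨fun h => ?_, hvJ⟩
          obtain ⟨a, -, rfl⟩ := Finset.mem_map.1 h
          exact (hφ _).1 ⟨a, rfl⟩ (Finset.mem_union_left _ hvI)
        rw [h4, h4, h4]
        exact Nat.zero_le _
      · obtain ⟨a, rfl⟩ := (hφ v).2 (by rw [Finset.mem_union, not_or]; exact ⟨hvI, hvJ⟩)
        have h4 : ∀ A : Finset (Fin (I ∪ J)ᶜ.card), ind (A.map φ ∪ J) (φ a) = ind A a :=
          fun A => by
            unfold ind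
            congr 1
            rw [Finset.mem_union, Finset.mem_map' φ, eq_iff_iff]
            exact ⟨fun h => h.resolve_right hvJ, Or.inl⟩
        rw [h4, h4, h4]
        exact hs a
  · -- good weights
    intro x hx hx2
    by_contra hcon
    have hbad : Bad L (ext x) := ⟨htau x hx, fun h => hcon (hnu x h)⟩
    have h1 := hmin _ hbad
    apply absurd h1
    rw [not_le]
    apply cost_lt
    · intro v hv
      rw [hext2 x v (by rw [Finset.mem_union, hI, hJ]; exact hv)]
      exact hv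
    · by_cases hex : ∃ a, x a = 0 ∨ 3 ≤ x a
      · left
        obtain ⟨a, ha⟩ := hex
        refine ⟨φ a, hφw a, ?_⟩
        rwa [hext1]
      · right
        have hlt : ∑ v, w (φ v) < ∑ v, x v := hx2.resolve_left hex
        push Not at hex
        have hall : ∀ v, (1 ≤ w v ∧ w v ≤ 2) → ∃ a, φ a = v := fun v hv =>
          (hφ v).2 (by rw [Finset.mem_union, hI, hJ]; omega)
        refine ⟨?_, ?_⟩
        · intro v hv
          obtain ⟨a, rfl⟩ := hall v hv
          rw [hext1]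
          have := hex a
          omega
        · have hset : Finset.univ.filter (fun v => 1 ≤ w v ∧ w v ≤ 2) =
              (Finset.univ : Finset (Fin (I ∪ J)ᶜ.card)).map φ := by
            ext v
            rw [Finset.mem_filter, Finset.mem_map]
            constructor
            · rintro ⟨-, hv⟩
              obtain ⟨a, ha⟩ := hall v hv
              exact ⟨a, Finset.mem_univ _, ha⟩
            · rintro ⟨a, -, rfl⟩
              exact ⟨Finset.mem_univ _, hφw a⟩
          rw [hset, Finset.sum_map, Finset.sum_map]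
          have h5 : ∑ a, ext x (φ a) = ∑ a, x a := Finset.sum_congr rfl (fun a _ => hext1 x a)
          rw [h5]
          exact hlt

end Pool.Agent.T3W
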